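import Pool.Agent.U17.PR.Union

/-! Sets of graph items without a full pair, and cliques. -/

namespace Pool.Agent.U17.PR

open Finset

/-- the pairs which are not joined -/
def prs (n : ℕ) (adj : ℕ → ℕ → Prop) [DecidableRel adj] : Finset (ℕ × ℕ) :=
  (range n ×ˢ range n).filter fun p => p.1 < p.2 ∧ ¬ (adj p.1 p.2 ∧ adj p.2 p.1)

/-- the vertices as labels -/
def verts (n : ℕ) : Finset Lab := (range n).image fun u => (u, u, 0)

/-- the pairs with their private items -/
def pits (m n : ℕ) (adj : ℕ → ℕ → Prop) [DecidableRel adj] : Finset Lab :=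
  (prs n adj ×ˢ range (m + 1)).image fun x => (x.1.1, x.1.2, x.2)

variable {m n T : ℕ} {adj : ℕ → ℕ → Prop} [DecidableRel adj]

lemma mem_prs {p : ℕ × ℕ} : p ∈ prs n adj ↔ (p.1 < n ∧ p.2 < n) ∧
    (p.1 < p.2 ∧ ¬ (adj p.1 p.2 ∧ adj p.2 p.1)) := by
  simp [prs]

lemma mem_verts {t : Lab} : t ∈ verts n ↔ t.1 < n ∧ t = (t.1, t.1, 0) := by
  simp only [verts, mem_image, mem_range]
  constructor
  · rintro ⟨u, h, rfl⟩; exact ⟨h, rfl⟩
  · rintro ⟨h, e⟩; exact ⟨t.1, h, e.symm⟩

lemma mem_pits {t : Lab} : t ∈ pits m n adj ↔ (t.1, t.2.1) ∈ prs n adj ∧ t.2.2 ≤ m := by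
  simp only [pits, mem_image, mem_product, mem_range, Prod.exists]
  constructor
  · rintro ⟨a, b, i, ⟨h1, h2⟩, rfl⟩; exact ⟨h1, Nat.lt_succ_iff.1 h2⟩
  · rintro ⟨h1, h2⟩; exact ⟨t.1, t.2.1, t.2.2, ⟨h1, by omega⟩, rfl⟩

lemma card_verts : (verts n).card = n := by
  rw [verts, card_image_of_injective _ (fun u v h => (Prod.mk.inj h).1), card_range]

lemma card_pits : (pits m n adj).card = (m + 1) * (prs n adj).card := by
  rw [pits, card_image_of_injective, card_product, card_range, mul_comm]
  rintro ⟨⟨a, b⟩, i⟩ ⟨⟨a', b'⟩, i'⟩ h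
  simp only [Prod.mk.injEq] at h ⊢
  exact ⟨⟨h.1, h.2.1⟩, h.2.2⟩

lemma disj_verts (k : ℕ) : Disjoint (verts k) (pits m n adj) := by
  rw [disjoint_left]
  intro t h1 h2
  have e1 := (mem_verts.1 h1).2
  have e2 := (mem_prs.1 (mem_pits.1 h2).1).2.1
  rw [e1] at e2
  exact lt_irrefl _ e2

/-- `S` is a clique of size `k` -/
def Clique (n : ℕ) (adj : ℕ → ℕ → Prop) (k : ℕ) : Prop :=
  ∃ S : Finset ℕ, (∀ u ∈ S, u < n) ∧ S.card = k ∧ ∀ u ∈ S, ∀ v ∈ S, u ≠ v → adj u v

theorem clique_iff (k : ℕ) : Clique n adj k ↔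
    ∃ F ⊆ verts (n + T) ∪ pits m n adj, (¬ Full m fun t => t ∈ F) ∧
      (m + 1) * (prs n adj).card + k + T ≤ F.card := by
  classical
  constructor
  · rintro ⟨S, h1, h2, h3⟩
    set A : Finset Lab := (S ∪ (range T).image fun t => n + t).image fun u => (u, u, 0) with hA
    have hAv : A ⊆ verts (n + T) := by
      intro t ht
      obtain ⟨u, hu, rfl⟩ := mem_image.1 ht
      refine mem_verts.2 ⟨?_, rfl⟩
      rcases mem_union.1 hu with hu | hu
      · have := h1 u hu; simp only; omega
      · obtain ⟨t', ht', rfl⟩ := mem_image.1 hu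
        have := mem_range.1 ht'; simp only; omega
    have hAc : A.card = k + T := by
      rw [hA, card_image_of_injective _ (fun u v h => (Prod.mk.inj h).1), card_union_of_disjoint,
        h2, card_image_of_injective _ (fun u v h => by simpa using h), card_range]
      rw [disjoint_left]
      intro u hu hu'
      obtain ⟨t, -, rfl⟩ := mem_image.1 hu'
      have := h1 _ hu
      omega
    refine ⟨A ∪ pits m n adj, union_subset_union hAv le_rfl, ?_, ?_⟩
    · rintro ⟨u, v, huv, k1, k2, k3, -⟩
      have r : ∀ w, w < n → ((w, w, 0) : Lab) ∈ A ∪ pits m n adj → w ∈ S := by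
        intro w hw hwA
        rcases mem_union.1 hwA with hwA | hwA
        · obtain ⟨x, hx, e⟩ := mem_image.1 hwA
          have e' := (Prod.mk.inj e).1
          subst e'
          rcases mem_union.1 hx with hx | hx
          · exact hx
          · obtain ⟨t, -, e2⟩ := mem_image.1 hx; omega
        · have := (mem_prs.1 (mem_pits.1 hwA).1).2.1
          exact absurd this (lt_irrefl _)
      rcases mem_union.1 k1 with k1 | k1
      · obtain ⟨x, -, e⟩ := mem_image.1 k1
        simp only [Prod.mk.injEq] at e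
        omega
      · have q := mem_prs.1 (mem_pits.1 k1).1
        simp only at q
        have r1 := r u q.1.1 k2
        have r2 := r v q.1.2 k3
        exact q.2.2 ⟨h3 _ r1 _ r2 huv.ne, h3 _ r2 _ r1 huv.ne'⟩
    · rw [card_union_of_disjoint (disjoint_of_subset_left hAv (disj_verts _)), hAc, card_pits]
      omega
  · rintro ⟨F, h1, h2, h3⟩
    set S0 := (range n).filter fun u => ((u, u, 0) : Lab) ∈ F with hS0
    set B := (prs n adj).filter fun p => ((p.1, p.1, 0) : Lab) ∈ F ∧ ((p.2, p.2, 0) : Lab) ∈ F with hB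
    have hFv : (F ∩ verts (n + T)).card ≤ S0.card + T := by
      have : F ∩ verts (n + T) ⊆ (S0 ∪ (range T).image fun t => n + t).image
          fun u => ((u, u, 0) : Lab) := by
        intro t ht
        obtain ⟨q1, q2⟩ := mem_inter.1 ht
        obtain ⟨q3, q4⟩ := mem_verts.1 q2
        refine mem_image.2 ⟨t.1, ?_, q4.symm⟩
        by_cases hn : t.1 < n
        · refine mem_union_left _ (mem_filter.2 ⟨mem_range.2 hn, ?_⟩)
          rw [← q4]; exact q1
        · exact mem_union_right _ (mem_image.2 ⟨t.1 - n, mem_range.2 (by omega), by omega⟩)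
      refine (card_le_card this).trans (card_image_le.trans ((card_union_le _ _).trans ?_))
      have := card_image_le (s := range T) (f := fun t => n + t)
      rw [card_range] at this
      omega
    have hFe : (F ∩ pits m n adj).card + B.card ≤ (m + 1) * (prs n adj).card := by
      rw [← card_pits (m := m)]
      have e1 : B ⊆ (pits m n adj \ F).image fun t => (t.1, t.2.1) := by
        intro p hp
        obtain ⟨q1, q2, q3⟩ := mem_filter.1 hp
        have q4 := (mem_prs.1 q1).2.1
        by_contra hcon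
        apply h2
        have all : ∀ i ≤ m, ((p.1, p.2, i) : Lab) ∈ F := by
          intro i hi
          by_contra hi'
          exact hcon (mem_image.2 ⟨(p.1, p.2, i), mem_sdiff.2 ⟨mem_pits.2 ⟨q1, hi⟩, hi'⟩, rfl⟩)
        exact ⟨p.1, p.2, q4, all 0 (Nat.zero_le _), q2, q3, fun i => all _ i.2⟩
      have e2 := (card_le_card e1).trans card_image_le
      have e3 : (F ∩ pits m n adj).card + (pits m n adj \ F).card = (pits m n adj).card := by
        rw [inter_comm, add_comm, card_sdiff_add_card_inter]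
      omega
    have hF : F.card = (F ∩ verts (n + T)).card + (F ∩ pits m n adj).card := by
      rw [← card_union_of_disjoint (disjoint_of_subset_left inter_subset_right
        (disjoint_of_subset_right inter_subset_right (disj_verts _))), ← inter_union_distrib_left,
        inter_eq_left.2 h1]
    set S1 := S0 \ B.image Prod.fst with hS1
    have hc1 : k ≤ S1.card := by
      have e1 := le_card_sdiff (B.image Prod.fst) S0
      have e2 : (B.image Prod.fst).card ≤ B.card := card_image_le
      rw [← hS1] at e1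
      omega
    obtain ⟨S, hS, hSk⟩ := exists_subset_card_eq hc1
    have key : ∀ u ∈ S, ∀ v ∈ S, u < v → adj u v ∧ adj v u := by
      intro u hu v hv huv
      by_contra hc
      have u1 := mem_sdiff.1 (hS hu)
      have v1 := mem_sdiff.1 (hS hv)
      have u2 := mem_filter.1 u1.1
      have v2 := mem_filter.1 v1.1
      exact u1.2 (mem_image.2 ⟨(u, v), mem_filter.2 ⟨mem_prs.2 ⟨⟨mem_range.1 u2.1,
        mem_range.1 v2.1⟩, huv, hc⟩, u2.2, v2.2⟩, rfl⟩)
    refine ⟨S, fun u hu => mem_range.1 (mem_filter.1 (mem_sdiff.1 (hS hu)).1).1, hSk,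
      fun u hu v hv huv => ?_⟩
    rcases huv.lt_or_gt with h | h
    · exact (key u hu v hv h).1
    · exact (key v hv u hu h).2

end Pool.Agent.U17.PR
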