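import Pool.Agent.Lib.helper10.NPDefs
import Pool.Agent.Lib.helper9.BinA

/-! Solution-free sets for a non-translation-invariant equation and the proportion problem. -/

namespace Pool.Agent.U17.PR

open Pool.Agent.Cx

/-- No tuple of elements of `S` (repetitions allowed) satisfies `∑ c i * x i = 0`. -/
def Free {k : ℕ} (c : Fin k → ℤ) (S : Finset ℤ) : Prop :=
  ∀ x : Fin k → ℤ, (∀ i, x i ∈ S) → ∑ i, c i * x i ≠ 0

/-- The largest size of a solution-free subset of `A`. -/
noncomputable def largest {k : ℕ} (c : Fin k → ℤ) (A : Finset ℤ) : ℕ :=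
  sSup {n | ∃ S ⊆ A, Free c S ∧ S.card = n}

/-- The infimum of the largest proportion of a solution-free subset over all finite nonempty sets
of nonzero integers. -/
noncomputable def kappa {k : ℕ} (c : Fin k → ℤ) : ℝ :=
  sInf {x | ∃ A : Finset ℤ, A.Nonempty ∧ (0 : ℤ) ∉ A ∧ x = (largest c A : ℝ) / (A.card : ℝ)}

/-- A finite list of integers as a binary string, the integers in binary. -/
def code (A : List ℤ) : List Bool := enc A

/-- The proportion problem: the codes of the lists without repetition of nonzero integers whose set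
`A` has a solution-free subset with at least `ε |A|` elements. -/
def proportion {k : ℕ} (c : Fin k → ℤ) (ε : ℚ) : Language :=
  {w | ∃ A : List ℤ, A.Nodup ∧ (0 : ℤ) ∉ A ∧
    (∃ S ⊆ A.toFinset, Free c S ∧ ε * (A.length : ℚ) ≤ (S.card : ℚ)) ∧ code A = w}

variable {k : ℕ} {c : Fin k → ℤ}

lemma free_perm (σ : Equiv.Perm (Fin k)) (S : Finset ℤ) : Free (c ∘ σ) S ↔ Free c S := by
  constructor
  · intro h x hx e
    refine h (x ∘ σ) (fun i => hx _) ?_
    rw [← e]
    exact Equiv.sum_comp σ fun i => c i * x i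
  · intro h x hx e
    refine h (x ∘ σ.symm) (fun i => hx _) ?_
    rw [← e, ← Equiv.sum_comp σ]
    exact Finset.sum_congr rfl fun i _ => by simp

lemma kappa_perm (σ : Equiv.Perm (Fin k)) : kappa (c ∘ σ) = kappa c := by
  simp only [kappa, largest, free_perm]

lemma proportion_perm (σ : Equiv.Perm (Fin k)) (ε : ℚ) :
    proportion (c ∘ σ) ε = proportion c ε := by
  simp only [proportion, free_perm]

lemma le_largest {A S : Finset ℤ} (h : S ⊆ A) (hS : Free c S) : S.card ≤ largest c A :=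
  le_csSup ⟨A.card, by rintro n ⟨S, h1, -, rfl⟩; exact Finset.card_le_card h1⟩ ⟨S, h, hS, rfl⟩

lemma exists_small {ε : ℚ} (h : kappa c < ε) : ∃ B : Finset ℤ, B.Nonempty ∧ (0 : ℤ) ∉ B ∧
    ((largest c B : ℕ) : ℚ) < ε * (B.card : ℚ) := by
  have hne : {x : ℝ | ∃ A : Finset ℤ, A.Nonempty ∧ (0 : ℤ) ∉ A ∧
      x = (largest c A : ℝ) / (A.card : ℝ)}.Nonempty :=
    ⟨_, {1}, Finset.singleton_nonempty _, by simp, rfl⟩
  obtain ⟨x, ⟨B, h1, h2, rfl⟩, hx⟩ := exists_lt_of_csInf_lt hne h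
  refine ⟨B, h1, h2, ?_⟩
  have h3 : (0 : ℝ) < B.card := by exact_mod_cast Finset.card_pos.2 h1
  rw [div_lt_iff₀ h3] at hx
  exact_mod_cast hx

lemma exists_perm {m : ℕ} {c : Fin (m + 3) → ℤ} (hc : ∀ i, c i ≠ 0) :
    ∃ σ : Equiv.Perm (Fin (m + 3)), (c ∘ σ) 1 + (c ∘ σ) 2 ≠ 0 := by
  have v0 : ((0 : Fin (m + 3)) : ℕ) = 0 := rfl
  have v1 : ((1 : Fin (m + 3)) : ℕ) = 1 := Fin.val_succ (0 : Fin (m + 2))
  have v2 : ((2 : Fin (m + 3)) : ℕ) = 2 := Fin.val_succ (Fin.succ (0 : Fin (m + 1)))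
  obtain ⟨i, j, hij, h⟩ : ∃ i j : Fin (m + 3), i ≠ j ∧ c i + c j ≠ 0 := by
    by_contra hcon
    push Not at hcon
    have h1 := hcon 0 1 (by simp)
    have h2 := hcon 0 2 (fun e => by have := congrArg Fin.val e; omega)
    have h3 := hcon 1 2 (fun e => by have := congrArg Fin.val e; omega)
    exact hc 0 (by omega)
  set σ1 : Equiv.Perm (Fin (m + 3)) := Equiv.swap 1 i with hσ1
  have e1 : σ1 1 = i := Equiv.swap_apply_left 1 i
  have n1 : i ≠ σ1 2 := by
    rw [← e1]
    intro h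
    have := congrArg Fin.val (σ1.injective h)
    omega
  refine ⟨Equiv.swap (σ1 2) j * σ1, ?_⟩
  have e2 : (Equiv.swap (σ1 2) j * σ1) 2 = j := by
    rw [Equiv.Perm.mul_apply, Equiv.swap_apply_left]
  have e3 : (Equiv.swap (σ1 2) j * σ1) 1 = i := by
    rw [Equiv.Perm.mul_apply, e1, Equiv.swap_apply_of_ne_of_ne n1 hij]
  rw [Function.comp_apply, Function.comp_apply, e2, e3]
  exact h

end Pool.Agent.U17.PR
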