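import Mathlib

/-! Short relations between the vertices, pairs and private items of a graph. -/

namespace Pool.Agent.U17.PR

open Finset

/-- labels of items: `(u, u, 0)` a vertex, `(u, v, 0)` with `u < v` a pair, `(u, v, i + 1)` the
private items of the pair -/
abbrev Lab := ℕ × ℕ × ℕ

/-- is the label a pair -/
def IsE (t : Lab) : Prop := t.2.2 = 0 ∧ t.1 < t.2.1

instance (t : Lab) : Decidable (IsE t) := by unfold IsE; infer_instance

variable {m : ℕ}

/-- the coordinate `s` of the vector of the item `t` -/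
def co (c : Fin (m + 3) → ℤ) (t s : Lab) : ℤ :=
  if IsE t then
    -((if s = (t.1, t.1, 0) then c 1 else 0) + (if s = (t.2.1, t.2.1, 0) then c 2 else 0) +
      ∑ i : Fin m, if s = (t.1, t.2.1, (i : ℕ) + 1) then c i.succ.succ.succ else 0)
  else if s = t then c 0 else 0

/-- the labels which occur -/
def Valid (m : ℕ) (t : Lab) : Prop := (t.2.2 = 0 ∧ t.1 = t.2.1) ∨ (t.1 < t.2.1 ∧ t.2.2 ≤ m)

lemma co_vert (c : Fin (m + 3) → ℤ) {u v : ℕ} (h : u < v) (w : ℕ) : co c (u, v, 0) (w, w, 0) =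
    -((if w = u then c 1 else 0) + (if w = v then c 2 else 0)) := by
  have e : ∑ i : Fin m, (if ((w, w, 0) : Lab) = (u, v, (i : ℕ) + 1) then c i.succ.succ.succ else 0)
      = 0 := sum_eq_zero fun i _ => by simp
  unfold co
  rw [if_pos (show IsE (u, v, 0) from ⟨rfl, h⟩), e, add_zero]
  simp only [Prod.mk.injEq, and_self, and_true]

lemma co_dum (c : Fin (m + 3) → ℤ) {u v : ℕ} (h : u < v) (a b : ℕ) (i : Fin m) :
    co c (u, v, 0) (a, b, (i : ℕ) + 1) = if a = u ∧ b = v then -c i.succ.succ.succ else 0 := by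
  unfold co
  rw [if_pos (show IsE (u, v, 0) from ⟨rfl, h⟩)]
  have e1 : ((a, b, (i : ℕ) + 1) : Lab) ≠ (u, u, 0) := by simp
  have e2 : ((a, b, (i : ℕ) + 1) : Lab) ≠ (v, v, 0) := by simp
  rw [if_neg e1, if_neg e2]
  by_cases hab : a = u ∧ b = v
  · rw [if_pos hab, sum_eq_single i]
    · simp [hab.1, hab.2]
    · intro j _ hj
      rw [if_neg]
      intro e
      simp only [Prod.mk.injEq, add_left_inj] at e
      exact hj (Fin.ext e.2.2.symm)
    · simp
  · rw [if_neg hab, sum_eq_zero]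
    · simp
    · intro j _
      rw [if_neg]
      intro e
      simp only [Prod.mk.injEq] at e
      exact hab ⟨e.1, e.2.1⟩

lemma co_non (c : Fin (m + 3) → ℤ) {t : Lab} (h : ¬ IsE t) (s : Lab) :
    co c t s = if s = t then c 0 else 0 := by
  unfold co; rw [if_neg h]

/-- the coefficient of the vertex `w` in the pair of `w` and `x` -/
def cf (c1 c2 : ℤ) (w x : ℕ) : ℤ := if w < x then c1 else c2

lemma co_pair (c : Fin (m + 3) → ℤ) {u v w x : ℕ} (h : u < v)
    (e : u = x ∧ v = w ∨ u = w ∧ v = x) : co c (u, v, 0) (w, w, 0) = -cf (c 1) (c 2) w x ∧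
      co c (u, v, 0) (x, x, 0) = -cf (c 1) (c 2) x w ∧
      ∀ y, y ≠ w → y ≠ x → co c (u, v, 0) (y, y, 0) = 0 := by
  have n1 := h.ne
  have n2 := h.ne'
  have n3 := not_lt.2 h.le
  rcases e with ⟨rfl, rfl⟩ | ⟨rfl, rfl⟩
  · refine ⟨?_, ?_, fun y h1 h2 => ?_⟩
    · rw [co_vert c h, cf, if_neg n2, if_pos rfl, if_neg n3, zero_add]
    · rw [co_vert c h, cf, if_pos rfl, if_neg n1, if_pos h, add_zero]
    · rw [co_vert c h, if_neg h2, if_neg h1]; simp
  · refine ⟨?_, ?_, fun y h1 h2 => ?_⟩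
    · rw [co_vert c h, cf, if_pos rfl, if_neg n1, if_pos h, add_zero]
    · rw [co_vert c h, cf, if_neg n2, if_pos rfl, if_neg n3, zero_add]
    · rw [co_vert c h, if_neg h1, if_neg h2]; simp

lemma tri_aux {s t α β δ : ℤ} (hs : s ≠ 0) (ht : t ≠ 0) (hα : α ≠ 0) (r1 : s * α + s * β = 0)
    (r2 : t * β + t * δ = 0) (r3 : t * α + s * δ = 0) : s + t = 0 := by
  have r4 : β = -α := by
    have : s * (α + β) = 0 := by linarith
    have := (mul_eq_zero.1 this).resolve_left hs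
    omega
  have r5 : δ = α := by
    have : t * (β + δ) = 0 := by linarith
    have := (mul_eq_zero.1 this).resolve_left ht
    omega
  rw [r5] at r3
  have : (s + t) * α = 0 := by linarith
  exact (mul_eq_zero.1 this).resolve_right hα

lemma tri {c1 c2 : ℤ} (k1 : c1 ≠ 0) (k2 : c2 ≠ 0) {w x y : ℕ} (hwx : w ≠ x) (hwy : w ≠ y)
    (hxy : x ≠ y) {e1 : ℤ} (n1 : e1 ≠ 0) {e2 e3 : ℤ}
    (q1 : e1 * cf c1 c2 w x + e2 * cf c1 c2 w y = 0)
    (q2 : e1 * cf c1 c2 x w + e3 * cf c1 c2 x y = 0)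
    (q3 : e2 * cf c1 c2 y w + e3 * cf c1 c2 y x = 0) : c1 + c2 = 0 := by
  have ncf : ∀ a b, cf c1 c2 a b ≠ 0 := fun a b => by unfold cf; split_ifs <;> assumption
  have n2 : e2 ≠ 0 := by
    rintro rfl
    rw [zero_mul, add_zero] at q1
    exact (mul_ne_zero n1 (ncf _ _)) q1
  have n3 : e3 ≠ 0 := by
    rintro rfl
    rw [zero_mul, add_zero] at q2
    exact (mul_ne_zero n1 (ncf _ _)) q2
  clear ncf
  unfold cf at q1 q2 q3
  rcases lt_or_gt_of_ne hwx with a1 | a1 <;> rcases lt_or_gt_of_ne hwy with a2 | a2 <;>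
    rcases lt_or_gt_of_ne hxy with a3 | a3
  · rw [if_pos a1, if_pos a2] at q1
    rw [if_neg a1.not_gt, if_pos a3] at q2
    rw [if_neg a2.not_gt, if_neg a3.not_gt] at q3
    exact tri_aux k1 k2 n1 (β := e2) (δ := e3) (by linarith) (by linarith) (by linarith)
  · rw [if_pos a1, if_pos a2] at q1
    rw [if_neg a1.not_gt, if_neg a3.not_gt] at q2
    rw [if_neg a2.not_gt, if_pos a3] at q3
    exact tri_aux k1 k2 n2 (β := e1) (δ := e3) (by linarith) (by linarith) (by linarith)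
  · omega
  · rw [if_pos a1, if_neg a2.not_gt] at q1
    rw [if_neg a1.not_gt, if_neg a3.not_gt] at q2
    rw [if_pos a2, if_pos a3] at q3
    exact tri_aux k1 k2 n2 (β := e3) (δ := e1) (by linarith) (by linarith) (by linarith)
  · rw [if_neg a1.not_gt, if_pos a2] at q1
    rw [if_pos a1, if_pos a3] at q2
    rw [if_neg a2.not_gt, if_neg a3.not_gt] at q3
    exact tri_aux k1 k2 n1 (β := e3) (δ := e2) (by linarith) (by linarith) (by linarith)
  · omega
  · rw [if_neg a1.not_gt, if_neg a2.not_gt] at q1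
    rw [if_pos a1, if_pos a3] at q2
    rw [if_pos a2, if_neg a3.not_gt] at q3
    exact tri_aux k1 k2 n3 (β := e1) (δ := e2) (by linarith) (by linarith) (by linarith)
  · rw [if_neg a1.not_gt, if_neg a2.not_gt] at q1
    rw [if_pos a1, if_neg a3.not_gt] at q2
    rw [if_pos a2, if_pos a3] at q3
    exact tri_aux k1 k2 n3 (β := e2) (δ := e1) (by linarith) (by linarith) (by linarith)

variable {c : Fin (m + 3) → ℤ} (hc : ∀ i, c i ≠ 0) (h12 : c 1 + c 2 ≠ 0)

section

variable {Γ : Finset Lab} {γ : Lab → ℤ} (hγ : ∀ t ∈ Γ, γ t ≠ 0)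
  (eqs : ∀ s, ∑ t ∈ Γ, γ t * co c t s = 0)

include hγ eqs

lemma two {t0 s : Lab} (h0 : t0 ∈ Γ) (h : co c t0 s ≠ 0) : ∃ t1 ∈ Γ, t1 ≠ t0 ∧ co c t1 s ≠ 0 := by
  by_contra hcon
  push Not at hcon
  have := eqs s
  rw [sum_eq_single_of_mem t0 h0 fun t ht hne => by rw [hcon t ht hne, mul_zero]] at this
  rcases mul_eq_zero.1 this with h1 | h1
  · exact hγ t0 h0 h1
  · exact h h1

include hc

lemma exists_edge (hne : Γ.Nonempty) : ∃ u v, u < v ∧ (u, v, 0) ∈ Γ := by
  obtain ⟨t0, h0⟩ := hne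
  by_cases hE : IsE t0
  · obtain ⟨u, v, i⟩ := t0
    obtain ⟨h1, h2⟩ := hE
    simp only at h1 h2
    subst h1
    exact ⟨u, v, h2, h0⟩
  · obtain ⟨t1, h1, h2, h3⟩ := two hγ eqs h0 (s := t0) (by rw [co_non c hE, if_pos rfl]; exact hc 0)
    by_cases hE1 : IsE t1
    · obtain ⟨u, v, i⟩ := t1
      obtain ⟨h4, h5⟩ := hE1
      simp only at h4 h5
      subst h4
      exact ⟨u, v, h5, h1⟩
    · rw [co_non c hE1] at h3
      by_cases e : t0 = t1
      · exact absurd e.symm h2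
      · rw [if_neg e] at h3; exact absurd rfl h3

lemma dummies {u v : ℕ} (h : u < v) (hE : (u, v, 0) ∈ Γ) (i : Fin m) :
    (u, v, (i : ℕ) + 1) ∈ Γ := by
  obtain ⟨t1, h1, h2, h3⟩ := two hγ eqs hE (s := (u, v, (i : ℕ) + 1))
    (by rw [co_dum c h, if_pos ⟨rfl, rfl⟩]; exact neg_ne_zero.2 (hc _))
  by_cases hE1 : IsE t1
  · obtain ⟨a, b, j⟩ := t1
    obtain ⟨h4, h5⟩ := hE1
    simp only at h4 h5
    subst h4
    rw [co_dum c h5] at h3
    by_cases e : u = a ∧ v = b
    · obtain ⟨rfl, rfl⟩ := e; exact absurd rfl h2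
    · rw [if_neg e] at h3; exact absurd rfl h3
  · rw [co_non c hE1] at h3
    by_cases e : ((u, v, (i : ℕ) + 1) : Lab) = t1
    · rw [e]; exact h1
    · rw [if_neg e] at h3; exact absurd rfl h3

lemma touch {u v w : ℕ} (h : u < v) (hE : (u, v, 0) ∈ Γ) (hw : w = u ∨ w = v) :
    ∃ t ∈ Γ, t ≠ (u, v, 0) ∧ (t = (w, w, 0) ∨ ∃ a b, a < b ∧ t = (a, b, 0) ∧ (w = a ∨ w = b)) := by
  obtain ⟨t1, h1, h2, h3⟩ := two hγ eqs hE (s := (w, w, 0)) (by
    rw [co_vert c h]
    rcases hw with rfl | rfl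
    · rw [if_pos rfl, if_neg h.ne, add_zero]; exact neg_ne_zero.2 (hc _)
    · rw [if_pos rfl, if_neg h.ne', zero_add]; exact neg_ne_zero.2 (hc _))
  refine ⟨t1, h1, h2, ?_⟩
  by_cases hE1 : IsE t1
  · obtain ⟨a, b, j⟩ := t1
    obtain ⟨h4, h5⟩ := hE1
    simp only at h4 h5
    subst h4
    refine Or.inr ⟨a, b, h5, rfl, ?_⟩
    rw [co_vert c h5] at h3
    by_contra hcon
    push Not at hcon
    rw [if_neg hcon.1, if_neg hcon.2] at h3
    exact h3 (by simp)
  · rw [co_non c hE1] at h3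
    by_cases e : ((w, w, 0) : Lab) = t1
    · exact Or.inl e.symm
    · rw [if_neg e] at h3; exact absurd rfl h3

include h12

theorem key (hcard : Γ.card ≤ m + 3) (hne : Γ.Nonempty) : ∃ u v, u < v ∧ (u, v, 0) ∈ Γ ∧
    (u, u, 0) ∈ Γ ∧ (v, v, 0) ∈ Γ ∧ ∀ i : Fin m, (u, v, (i : ℕ) + 1) ∈ Γ := by
  classical
  obtain ⟨u, v, huv, hE⟩ := exists_edge hc hγ eqs hne
  have hD := dummies hc hγ eqs huv hE
  by_contra hcon
  -- a vertex of the pair which does not occur
  obtain ⟨w, x, hwx, hw, hx, hwΓ⟩ : ∃ w x, w ≠ x ∧ (w = u ∨ w = v) ∧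
      ((x = u ∧ w = v) ∨ (x = v ∧ w = u)) ∧ (w, w, 0) ∉ Γ := by
    by_cases hu : (u, u, 0) ∈ Γ
    · by_cases hv : (v, v, 0) ∈ Γ
      · exact absurd ⟨u, v, huv, hE, hu, hv, hD⟩ hcon
      · exact ⟨v, u, huv.ne', Or.inr rfl, Or.inl ⟨rfl, rfl⟩, hv⟩
    · exact ⟨u, v, huv.ne, Or.inl rfl, Or.inr ⟨rfl, rfl⟩, hu⟩
  obtain ⟨F, hF, hFE, hF2⟩ := touch hc hγ eqs huv hE hw
  rcases hF2 with rfl | ⟨p, q, hpq, rfl, hwpq⟩
  · exact hwΓ hF
  have hDF := dummies hc hγ eqs hpq hF
  -- the other end of the second pair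
  obtain ⟨y, hwy, hy⟩ : ∃ y, w ≠ y ∧ ((y = p ∧ w = q) ∨ (y = q ∧ w = p)) := by
    rcases hwpq with rfl | rfl
    · exact ⟨q, hpq.ne, Or.inr ⟨rfl, rfl⟩⟩
    · exact ⟨p, hpq.ne', Or.inl ⟨rfl, rfl⟩⟩
  have hxy : x ≠ y := by
    rintro rfl
    apply hFE
    have : p = u ∧ q = v := by omega
    rw [this.1, this.2]
  obtain ⟨g1, hg1, hg1E, hg1x⟩ := touch hc hγ eqs huv hE (w := x) (by omega)
  obtain ⟨g2, hg2, hg2F, hg2y⟩ := touch hc hγ eqs hpq hF (w := y) (by omega)
  have hg1F : g1 ≠ (p, q, 0) := by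
    rintro rfl
    rcases hg1x with e | ⟨a, b, hab, e, hx'⟩
    · simp only [Prod.mk.injEq] at e; omega
    · simp only [Prod.mk.injEq] at e; omega
  have hg2E : g2 ≠ (u, v, 0) := by
    rintro rfl
    rcases hg2y with e | ⟨a, b, hab, e, hx'⟩
    · simp only [Prod.mk.injEq] at e; omega
    · simp only [Prod.mk.injEq] at e; omega
  have hg10 : g1.2.2 = 0 := by
    rcases hg1x with e | ⟨a, b, hab, e, hx'⟩ <;> rw [e]
  set T3 : Finset Lab := {(u, v, 0), (p, q, 0), g1} with hT3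
  set DE : Finset Lab := univ.image fun i : Fin m => ((u, v, (i : ℕ) + 1) : Lab) with hDE
  set DF : Finset Lab := univ.image fun i : Fin m => ((p, q, (i : ℕ) + 1) : Lab) with hDF'
  have c3 : T3.card = 3 := by
    rw [hT3, card_insert_of_notMem, card_insert_of_notMem, card_singleton]
    · simpa using hg1F.symm
    · simp only [mem_insert, mem_singleton, not_or]
      exact ⟨hFE.symm, hg1E.symm⟩
  have cE : DE.card = m := by
    rw [hDE, card_image_of_injective, card_univ, Fintype.card_fin]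
    intro i j e
    simp only [Prod.mk.injEq, true_and, add_left_inj] at e
    exact Fin.ext e
  have cF : DF.card = m := by
    rw [hDF', card_image_of_injective, card_univ, Fintype.card_fin]
    intro i j e
    simp only [Prod.mk.injEq, true_and, add_left_inj] at e
    exact Fin.ext e
  have d1 : Disjoint DE DF := by
    rw [disjoint_left]
    intro t h1 h2
    obtain ⟨i, -, rfl⟩ := mem_image.1 h1
    obtain ⟨j, -, e⟩ := mem_image.1 h2
    simp only [Prod.mk.injEq] at e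
    exact hFE (by rw [e.1, e.2.1])
  have d2 : Disjoint T3 (DE ∪ DF) := by
    rw [disjoint_left]
    intro t h1 h2
    have h3 : t.2.2 = 0 := by
      simp only [hT3, mem_insert, mem_singleton] at h1
      rcases h1 with rfl | rfl | rfl
      exacts [rfl, rfl, hg10]
    rcases mem_union.1 h2 with h2 | h2
    · obtain ⟨i, -, rfl⟩ := mem_image.1 h2; simp at h3
    · obtain ⟨i, -, rfl⟩ := mem_image.1 h2; simp at h3
  have hsub : T3 ∪ (DE ∪ DF) ⊆ Γ := by
    intro t ht
    rcases mem_union.1 ht with ht | ht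
    · simp only [hT3, mem_insert, mem_singleton] at ht
      rcases ht with rfl | rfl | rfl
      exacts [hE, hF, hg1]
    rcases mem_union.1 ht with ht | ht
    · obtain ⟨i, -, rfl⟩ := mem_image.1 ht; exact hD i
    · obtain ⟨i, -, rfl⟩ := mem_image.1 ht; exact hDF i
  have hle := card_le_card hsub
  rw [card_union_of_disjoint d2, card_union_of_disjoint d1, c3, cE, cF] at hle
  have hm : m = 0 := by omega
  subst hm
  have hΓ : Γ = T3 := (eq_of_subset_of_card_le (subset_union_left.trans hsub) (by omega)).symm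
  have hg12 : g2 = g1 := by
    rw [hΓ, hT3] at hg2
    simp only [mem_insert, mem_singleton] at hg2
    rcases hg2 with e | e | e
    · exact absurd e hg2E
    · exact absurd e hg2F
    · exact e
  subst hg12
  obtain ⟨a, b, hab, rfl, hab1, hab2⟩ : ∃ a b, a < b ∧ g2 = (a, b, 0) ∧ (x = a ∨ x = b) ∧
      (y = a ∨ y = b) := by
    rcases hg1x with e | ⟨a, b, hab, e, hx'⟩
    · exfalso
      rcases hg2y with e' | ⟨a, b, hab, e', hx'⟩
      · rw [e] at e'; simp only [Prod.mk.injEq] at e'; omega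
      · rw [e] at e'; simp only [Prod.mk.injEq] at e'; omega
    · rcases hg2y with e' | ⟨a', b', hab', e', hy'⟩
      · rw [e] at e'; simp only [Prod.mk.injEq] at e'; omega
      · rw [e] at e'
        simp only [Prod.mk.injEq] at e'
        exact ⟨a, b, hab, e, hx', by omega⟩
  have hsum : ∀ w', γ (u, v, 0) * co c (u, v, 0) (w', w', 0) +
      (γ (p, q, 0) * co c (p, q, 0) (w', w', 0) + γ (a, b, 0) * co c (a, b, 0) (w', w', 0)) = 0 := by
    intro w'
    have := eqs (w', w', 0)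
    rw [hΓ, hT3, sum_insert, sum_insert, sum_singleton] at this
    · exact this
    · simpa using hg1F.symm
    · simp only [mem_insert, mem_singleton, not_or]
      exact ⟨hFE.symm, hg1E.symm⟩
  have v1 := co_pair c huv (w := w) (x := x) (by omega)
  have v2 := co_pair c hpq (w := w) (x := y) (by omega)
  have v3 := co_pair c hab (w := x) (x := y) (by omega)
  refine h12 (tri (e2 := γ (p, q, 0)) (e3 := γ (a, b, 0)) (hc 1) (hc 2) hwx hwy hxy (hγ _ hE)
    ?_ ?_ ?_)
  · have := hsum w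
    rw [v1.1, v2.1, v3.2.2 w hwx hwy] at this
    linarith
  · have := hsum x
    rw [v1.2.1, v2.2.2 x hwx.symm hxy, v3.1] at this
    linarith
  · have := hsum y
    rw [v1.2.2 y hwy.symm hxy.symm, v2.2.1, v3.2.1] at this
    linarith

end

end Pool.Agent.U17.PR
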