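import Mathlib

/-! The largest solution-free subset of many independent copies of a finite set is an eventually
linear function of the number of copies. -/

namespace Pool.Agent.U17.PR

open Finset

lemma evlin (g : ℕ → ℕ) (C0 N : ℕ)
    (h : ∀ J, ∃ w ≤ N, (∀ i, g J + i * w ≤ g (J + i)) ∧ g J ≤ J * w + C0) :
    ∃ (W : ℕ) (e : ℤ) (J2 : ℕ), ∀ J, J2 ≤ J → (g J : ℤ) = W * J + e := by
  choose w hw1 hw2 hw3 using h
  obtain ⟨J0, hJ0⟩ : ∃ J0, ∀ J, w J ≤ w J0 := by
    by_contra hc
    push Not at hc
    have : ∀ n, ∃ J, n ≤ w J := by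
      intro n
      induction n with
      | zero => exact ⟨0, Nat.zero_le _⟩
      | succ n ih =>
        obtain ⟨J, hJ⟩ := ih
        obtain ⟨J', hJ'⟩ := hc J
        exact ⟨J', by omega⟩
    obtain ⟨J, hJ⟩ := this (N + 1)
    have := hw1 J
    omega
  set W := w J0 with hW
  set J1 := J0 + J0 * W + C0 + 1 with hJ1
  have low : ∀ J, J0 ≤ J → g J0 + (J - J0) * W ≤ g J := fun J hJ => by
    have := hw2 J0 (J - J0)
    rwa [Nat.add_sub_cancel' hJ] at this
  have eqW : ∀ J, J1 ≤ J → w J = W := by
    intro J hJ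
    refine le_antisymm (hJ0 J) ?_
    by_contra hlt
    push Not at hlt
    have a1 := low J (by omega)
    have a2 := hw3 J
    have a3 : J * w J ≤ J * (W - 1) := Nat.mul_le_mul_left J (by omega)
    have a4 : J * (W - 1) + J = J * W := by
      obtain ⟨V, hV⟩ : ∃ V, W = V + 1 := ⟨W - 1, by omega⟩
      rw [hV, Nat.add_sub_cancel]; ring
    have a5 : (J - J0) * W + J0 * W = J * W := by
      rw [← add_mul, Nat.sub_add_cancel (by omega)]
    omega
  have mono : ∀ J, J1 ≤ J → ∀ i, (g J : ℤ) - W * J ≤ g (J + i) - W * (J + i : ℕ) := by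
    intro J hJ i
    have := hw2 J i
    rw [eqW J hJ] at this
    have : ((g J : ℤ)) + i * W ≤ g (J + i) := by exact_mod_cast this
    push_cast
    linarith
  obtain ⟨e, ⟨J2, hJ2, he⟩, hmax⟩ := Int.exists_greatest_of_bdd
    (P := fun x => ∃ J, J1 ≤ J ∧ (g J : ℤ) - W * J = x) ⟨C0, by
      rintro x ⟨J, hJ, rfl⟩
      have := hw3 J
      rw [eqW J hJ] at this
      have : (g J : ℤ) ≤ J * W + C0 := by exact_mod_cast this
      linarith⟩ ⟨_, J1, le_rfl, rfl⟩
  refine ⟨W, e, J2, fun J hJ => ?_⟩
  have b1 := hmax _ ⟨J, by omega, rfl⟩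
  have b2 := mono J2 hJ2 (J - J2)
  rw [Nat.add_sub_cancel' hJ] at b2
  rw [he] at b2
  linarith

variable {k : ℕ} (c : Fin k → ℤ)

/-- the family `τ 0, …, τ (J - 1)` of sets in independent copies has no solution -/
def BFree (J : ℕ) (τ : ℕ → Finset ℤ) : Prop :=
  ∀ z : Fin k → ℤ × ℕ, (∀ i, (z i).2 < J ∧ (z i).1 ∈ τ (z i).2) →
    ∃ j, ∑ i, (if (z i).2 = j then c i * (z i).1 else 0) ≠ 0

variable {c}

lemma dup {J : ℕ} {τ : ℕ → Finset ℤ} (h : BFree c J τ) {U : Finset ℤ}
    (hU : k ≤ ((range J).filter fun j => τ j = U).card) (hk : 0 < k) :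
    BFree c (J + 1) (Function.update τ J U) := by
  classical
  intro z hz
  by_cases hJ : ∃ i0, (z i0).2 = J
  · obtain ⟨i0, hi0⟩ := hJ
    obtain ⟨j0, hj0, hj0'⟩ : ∃ j0 ∈ (range J).filter (fun j => τ j = U),
        j0 ∉ (univ.erase i0).image fun i => (z i).2 := by
      by_contra hc
      push Not at hc
      have h1 : (range J).filter (fun j => τ j = U) ⊆ (univ.erase i0).image fun i => (z i).2 := hc
      have h2 := (card_le_card h1).trans card_image_le
      rw [card_erase_of_mem (mem_univ _), card_univ, Fintype.card_fin] at h2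
      omega
    obtain ⟨q1, q2⟩ := mem_filter.1 hj0
    have q1' := mem_range.1 q1
    have q3 : ∀ i, (z i).2 ≠ j0 := by
      intro i e
      by_cases hi : i = i0
      · subst hi; omega
      · exact hj0' (mem_image.2 ⟨i, mem_erase.2 ⟨hi, mem_univ _⟩, e⟩)
    obtain ⟨j, hj⟩ := h (fun i => ((z i).1, if (z i).2 = J then j0 else (z i).2)) (fun i => by
      simp only
      have := hz i
      by_cases hi : (z i).2 = J
      · rw [if_pos hi]
        rw [hi, Function.update_self] at this
        exact ⟨q1', by rw [q2]; exact this.2⟩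
      · rw [if_neg hi]
        rw [Function.update_of_ne hi] at this
        exact ⟨by omega, this.2⟩)
    simp only at hj
    by_cases hjj : j = j0
    · refine ⟨J, ?_⟩
      convert hj using 1
      refine sum_congr rfl fun i _ => ?_
      subst hjj
      by_cases hi : (z i).2 = J
      · simp [hi]
      · simp [hi, q3 i]
    · refine ⟨j, ?_⟩
      have hjJ : j ≠ J := by
        rintro rfl
        apply hj
        refine sum_eq_zero fun i _ => ?_
        by_cases hi : (z i).2 = j
        · rw [if_pos hi, if_neg (by omega)]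
        · rw [if_neg hi, if_neg hi]
      convert hj using 1
      refine sum_congr rfl fun i _ => ?_
      by_cases hi : (z i).2 = J
      · rw [if_pos hi, hi, if_neg (Ne.symm hjJ), if_neg (Ne.symm hjj)]
      · rw [if_neg hi]
  · push Not at hJ
    refine h z fun i => ?_
    have := hz i
    rw [Function.update_of_ne (hJ i)] at this
    exact ⟨by have := hJ i; omega, this.2⟩

variable (c) in
/-- the sizes of the solution-free families -/
def good (B : Finset ℤ) (J n : ℕ) : Prop :=
  ∃ τ : ℕ → Finset ℤ, (∀ j, τ j ⊆ B) ∧ BFree c J τ ∧ n = ∑ j ∈ range J, (τ j).card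

variable (c) in
/-- the largest size -/
noncomputable def gmax (B : Finset ℤ) (J : ℕ) : ℕ := sSup {n | good c B J n}

variable {B : Finset ℤ}

lemma good_le {J n : ℕ} (h : good c B J n) : n ≤ J * B.card := by
  obtain ⟨τ, h1, -, rfl⟩ := h
  calc ∑ j ∈ range J, (τ j).card ≤ ∑ _j ∈ range J, B.card := sum_le_sum fun j _ => card_le_card (h1 j)
    _ = J * B.card := by rw [sum_const, card_range, smul_eq_mul]

lemma good_bdd (J : ℕ) : BddAbove {n | good c B J n} := ⟨J * B.card, fun _ h => good_le h⟩

lemma good_zero (hk : 0 < k) (J : ℕ) : good c B J 0 := by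
  refine ⟨fun _ => ∅, fun _ => empty_subset _, fun z hz => ?_, by simp⟩
  exact absurd (hz ⟨0, hk⟩).2 (notMem_empty _)

lemma gmax_good (hk : 0 < k) (J : ℕ) : good c B J (gmax c B J) :=
  Nat.sSup_mem ⟨0, good_zero hk J⟩ (good_bdd J)

lemma le_gmax {J n : ℕ} (h : good c B J n) : n ≤ gmax c B J := le_csSup (good_bdd J) h

lemma dups {J : ℕ} {τ : ℕ → Finset ℤ} (hτ : ∀ j, τ j ⊆ B) (h : BFree c J τ) {U : Finset ℤ}
    (hUB : U ⊆ B) (hU : k ≤ ((range J).filter fun j => τ j = U).card) (hk : 0 < k) (i : ℕ) :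
    ∃ τ' : ℕ → Finset ℤ, (∀ j, τ' j ⊆ B) ∧ BFree c (J + i) τ' ∧
      k ≤ ((range (J + i)).filter fun j => τ' j = U).card ∧
      ∑ j ∈ range (J + i), (τ' j).card = ∑ j ∈ range J, (τ j).card + i * U.card := by
  induction i with
  | zero => exact ⟨τ, hτ, h, hU, by simp⟩
  | succ i ih =>
    obtain ⟨τ', h1, h2, h3, h4⟩ := ih
    refine ⟨Function.update τ' (J + i) U, fun j => ?_, dup h2 h3 hk, h3.trans (card_le_card ?_), ?_⟩
    · by_cases hj : j = J + i
      · rw [hj, Function.update_self]; exact hUB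
      · rw [Function.update_of_ne hj]; exact h1 j
    · intro j hj
      obtain ⟨q1, q2⟩ := mem_filter.1 hj
      have q3 := mem_range.1 q1
      refine mem_filter.2 ⟨mem_range.2 (by omega), ?_⟩
      rw [Function.update_of_ne (by omega)]; exact q2
    · rw [← add_assoc, sum_range_succ, Function.update_self]
      have : ∑ j ∈ range (J + i), (Function.update τ' (J + i) U j).card =
          ∑ j ∈ range (J + i), (τ' j).card := sum_congr rfl fun j hj => by
        rw [Function.update_of_ne (mem_range.1 hj).ne]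
      rw [this, h4]; ring

lemma gmax_step (hk : 0 < k) (J : ℕ) : ∃ w ≤ B.card, (∀ i, gmax c B J + i * w ≤ gmax c B (J + i)) ∧
    gmax c B J ≤ J * w + 2 ^ B.card * (k * B.card) := by
  classical
  obtain ⟨τ, h1, h2, h3⟩ := gmax_good (c := c) (B := B) hk J
  set 𝒰 := B.powerset.filter fun U => U = ∅ ∨ k ≤ ((range J).filter fun j => τ j = U).card with h𝒰
  obtain ⟨U, hU, hmax⟩ := exists_max_image 𝒰 card ⟨∅, by simp [h𝒰]⟩
  obtain ⟨hUB, hU'⟩ := mem_filter.1 hU
  refine ⟨U.card, card_le_card (mem_powerset.1 hUB), fun i => ?_, ?_⟩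
  · rcases hU' with rfl | hU'
    · rw [card_empty, mul_zero, add_zero]
      refine le_gmax ⟨fun j => if j < J then τ j else ∅, fun j => ?_, fun z hz => ?_, ?_⟩
      · beta_reduce
        split_ifs
        exacts [h1 j, empty_subset _]
      · refine h2 z fun i => ?_
        have := (hz i).2
        beta_reduce at this
        by_cases hj : (z i).2 < J
        · rw [if_pos hj] at this; exact ⟨hj, this⟩
        · rw [if_neg hj] at this; exact absurd this (notMem_empty _)
      · rw [h3, sum_range_add]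
        have e1 : ∑ j ∈ range J, (if j < J then τ j else ∅).card = ∑ j ∈ range J, (τ j).card :=
          sum_congr rfl fun j hj => by rw [if_pos (mem_range.1 hj)]
        have e2 : ∑ j ∈ range i, (if J + j < J then τ (J + j) else ∅).card = 0 :=
          sum_eq_zero fun j _ => by rw [if_neg (by omega), card_empty]
        rw [e1, e2, add_zero]
    · obtain ⟨τ', q1, q2, -, q4⟩ := dups h1 h2 (mem_powerset.1 hUB) hU' hk i
      rw [h3, ← q4]
      exact le_gmax ⟨τ', q1, q2, rfl⟩
  · rw [h3]
    have e1 : ∑ j ∈ range J, (τ j).card =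
        ∑ V ∈ B.powerset, ∑ j ∈ (range J).filter (fun j => τ j = V), (τ j).card :=
      (sum_fiberwise_of_maps_to (fun j _ => mem_powerset.2 (h1 j)) _).symm
    have e2 : J = ∑ V ∈ B.powerset, ((range J).filter fun j => τ j = V).card := by
      have := card_eq_sum_card_fiberwise (f := τ) (s := range J) (t := B.powerset)
        (fun j _ => mem_coe.2 (mem_powerset.2 (h1 j)))
      rwa [card_range] at this
    have e3 : ∀ V ∈ B.powerset, ∑ j ∈ (range J).filter (fun j => τ j = V), (τ j).card ≤
        ((range J).filter fun j => τ j = V).card * U.card + k * B.card := by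
      intro V hV
      have e4 : ∑ j ∈ (range J).filter (fun j => τ j = V), (τ j).card =
          ((range J).filter fun j => τ j = V).card * V.card := by
        rw [sum_congr rfl fun j hj => by rw [(mem_filter.1 hj).2], sum_const, smul_eq_mul]
      rw [e4]
      by_cases hVk : k ≤ ((range J).filter fun j => τ j = V).card
      · have := hmax V (mem_filter.2 ⟨hV, Or.inr hVk⟩)
        have := Nat.mul_le_mul_left ((range J).filter fun j => τ j = V).card this
        omega
      · have := Nat.mul_le_mul (not_le.1 hVk).le (card_le_card (mem_powerset.1 hV))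
        omega
    rw [e1]
    refine (sum_le_sum e3).trans ?_
    rw [sum_add_distrib, ← sum_mul, ← e2, sum_const, card_powerset, smul_eq_mul]

theorem gmax_linear (hk : 0 < k) : ∃ (W : ℕ) (e : ℤ) (J2 : ℕ), ∀ J, J2 ≤ J →
    (gmax c B J : ℤ) = W * J + e :=
  evlin (gmax c B) _ _ fun J => gmax_step hk J

/-- every member of a solution-free family is solution-free -/
lemma gmax_le (hk : 0 < k) {f : ℕ}
    (hf : ∀ S ⊆ B, (∀ x : Fin k → ℤ, (∀ i, x i ∈ S) → ∑ i, c i * x i ≠ 0) → S.card ≤ f) (J : ℕ) :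
    gmax c B J ≤ J * f := by
  obtain ⟨τ, h1, h2, h3⟩ := gmax_good (c := c) (B := B) hk J
  rw [h3]
  have : ∀ j ∈ range J, (τ j).card ≤ f := fun j hj => hf _ (h1 j) fun x hx e => by
    obtain ⟨j', hj'⟩ := h2 (fun i => (x i, j)) fun i => ⟨mem_range.1 hj, hx i⟩
    apply hj'
    simp only
    by_cases e' : j = j'
    · simpa [e'] using e
    · simp [e']
  calc ∑ j ∈ range J, (τ j).card ≤ ∑ _j ∈ range J, f := sum_le_sum this
    _ = J * f := by rw [sum_const, card_range, smul_eq_mul]

lemma slope_le (hk : 0 < k) {f W : ℕ} {e : ℤ} {J2 : ℕ}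
    (h : ∀ J, J2 ≤ J → (gmax c B J : ℤ) = W * J + e) (hf : ∀ J, gmax c B J ≤ J * f) : W ≤ f := by
  by_contra hc
  push Not at hc
  set J := J2 + (-e).toNat + 1 with hJ
  have h1 := h J (by omega)
  have h2 : (gmax c B J : ℤ) ≤ J * f := by exact_mod_cast hf J
  have h3 : (J : ℤ) * (f + 1) ≤ J * W := by
    refine mul_le_mul_of_nonneg_left ?_ (by positivity)
    exact_mod_cast hc
  have h4 : (-e) ≤ ((-e).toNat : ℤ) := Int.self_le_toNat _
  have h5 : (J : ℤ) = J2 + (-e).toNat + 1 := by rw [hJ]; push_cast; ring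
  nlinarith

end Pool.Agent.U17.PR
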