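import Pool.Agent.U17.PR.Red

/-! NP-completeness of the proportion problem. -/

namespace Pool.Agent.U17.PR

open Pool.Agent.Cx

variable {m : ℕ} {c : Fin (m + 3) → ℤ}

theorem hard_aux (hc : ∀ i, c i ≠ 0) (h12 : c 1 + c 2 ≠ 0) (hs : ∑ i, c i ≠ 0) {ε : ℚ}
    (hκ : kappa c < ε) (h1 : ε < 1) : InNP (proportion c ε) ∧ NPHard (proportion c ε) := by
  obtain ⟨B, hB1, hB2, hB3⟩ := exists_small hκ
  have hcard : (0 : ℚ) < B.card := by exact_mod_cast Finset.card_pos.2 hB1
  have h0 : 0 ≤ ε := by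
    have h2 : (0 : ℚ) ≤ (largest c B : ℕ) := by positivity
    by_contra hneg
    push Not at hneg
    have := mul_neg_of_neg_of_pos hneg hcard
    linarith
  refine ⟨inNP h0, fun L hL => ?_⟩
  obtain ⟨W, e, J2, hg⟩ := gmax_linear (c := c) (B := B) (by omega)
  have hWf : W ≤ largest c B := slope_le (c := c) (B := B) (by omega) hg
    fun J => gmax_le (by omega) (fun S hS hfree => le_largest hS hfree) J
  have hW : ε.den * W < ε.num.toNat * B.card := by
    have h2 : (W : ℚ) < ε * B.card := lt_of_le_of_lt (by exact_mod_cast hWf) hB3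
    by_contra hcon
    push Not at hcon
    exact absurd ((ratio h0 B.card W).2 hcon) (not_le.2 h2)
  have hg' : ∀ J, J2 ≤ J → (gmax c B J : ℤ) = W * J + ((e.toNat : ℤ) - ((-e).toNat : ℤ)) := by
    intro J hJ
    rw [hg J hJ]
    omega
  have h2 : Hard (fun p : List (List Bool) × ℕ => HasClq p.1 p.2) :=
    Hard.of_clique (r := fun p => p) PT.id fun M k _ _ _ => Iff.rfl
  obtain ⟨g, hgp, hgx⟩ := h2 L hL
  have hr : PT fun w : List Bool => AL c B (g w).1
      (TT m ε.num.toNat ε.den W B.card J2 e.toNat (-e).toNat (g w).1 (g w).2)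
      (JJ m ε.num.toNat ε.den J2 e.toNat (-e).toNat (g w).1 (g w).2) :=
    pt_AL c B hgp.fst
      (PT.comp (g := fun p : List (List Bool) × ℕ =>
        TT m ε.num.toNat ε.den W B.card J2 e.toNat (-e).toNat p.1 p.2)
        (pt_TT m ε.num.toNat ε.den W B.card J2 e.toNat (-e).toNat) hgp)
      (PT.comp (g := fun p : List (List Bool) × ℕ =>
        JJ m ε.num.toNat ε.den J2 e.toNat (-e).toNat p.1 p.2)
        (pt_JJ m ε.num.toNat ε.den J2 e.toNat (-e).toNat) hgp)
  refine ⟨fun w => enc (AL c B (g w).1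
      (TT m ε.num.toNat ε.den W B.card J2 e.toNat (-e).toNat (g w).1 (g w).2)
      (JJ m ε.num.toNat ε.den J2 e.toNat (-e).toNat (g w).1 (g w).2)), polyTime_of_PT hr,
    fun w => ?_⟩
  have hx := hgx w
  beta_reduce at hx
  beta_reduce
  rw [hx, main_iff hc h12 hs hB2 h0 h1 hg' hW]
  constructor
  · intro h
    exact ⟨_, nodup_AL hc hB2 _ _ _, zero_AL hc hB2 _ _ _, h, rfl⟩
  · rintro ⟨A, -, -, h3, h4⟩
    have h5 : A = _ := enc_inj h4
    rw [h5] at h3
    exact h3

theorem npc (hc : ∀ i, c i ≠ 0) (hs : ∑ i, c i ≠ 0) {ε : ℚ} (hκ : kappa c < ε) (h1 : ε < 1) :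
    NPComplete (proportion c ε) := by
  obtain ⟨σ, hσ⟩ := exists_perm hc
  have := hard_aux (c := c ∘ σ) (fun i => hc _) hσ (by
    rw [show ∑ i, (c ∘ σ) i = ∑ i, c i from Equiv.sum_comp σ c]; exact hs)
    (by rwa [kappa_perm]) h1
  rwa [proportion_perm] at this

end Pool.Agent.U17.PR
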