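import Pool.Agent.U17.PR.Defs
import Pool.Agent.U17.SF.Member

/-! The proportion problem is in NP. -/

namespace Pool.Agent.U17.PR

open Pool.Agent.Cx Polynomial

variable {α : Type} [Enc α] {k : ℕ} {c : Fin k → ℤ}

/-- the verifier -/
def Ok (c : List ℤ) (k : ℕ) (W : List ℤ) : Prop := ∀ t ∈ SF.tuples W k, SF.dot c t ≠ 0

lemma pp_ok (c : List ℤ) (k : ℕ) {W : α → List ℤ} (hW : PT W) : PP fun a => Ok c k (W a) := by
  unfold Ok
  refine PP.ball (p := fun (_ : α) (t : List ℤ) => SF.dot c t ≠ 0) ?_ (SF.pt_tuples hW k)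
  unfold SF.dot
  have : PT fun p : α × List ℤ => (List.zipWith (fun x y => x * y) c p.2).sum :=
    PT.sumZ (PT.zipWith (f := fun (_ : α × List ℤ) (x y : ℤ) => x * y) (by fun_prop)
      (PT.const c) PT.id.snd)
  exact PP.ne this (PT.const 0)

lemma ok_iff (W : List ℤ) : Ok (List.ofFn c) k W ↔ Free c W.toFinset := by
  constructor
  · intro h z hz e
    refine h (List.ofFn z) (SF.mem_tuples.2 ⟨z, fun i => by simpa using hz i, rfl⟩) ?_
    rw [SF.dot_ofFn]; exact e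
  · intro h t ht e
    obtain ⟨z, hz, rfl⟩ := SF.mem_tuples.1 ht
    rw [SF.dot_ofFn] at e
    exact h z (fun i => by simpa using hz i) e

lemma ratio {ε : ℚ} (hε : 0 ≤ ε) (a b : ℕ) :
    ε * (a : ℚ) ≤ (b : ℚ) ↔ ε.num.toNat * a ≤ ε.den * b := by
  have h1 : (0 : ℚ) < ε.den := by exact_mod_cast ε.den_pos
  have h2 : (ε.num.toNat : ℤ) = ε.num := Int.toNat_of_nonneg (Rat.num_nonneg.2 hε)
  have h3 : ε = (ε.num.toNat : ℚ) / ε.den := by
    have : ((ε.num.toNat : ℤ) : ℚ) = (ε.num : ℚ) := by rw [h2]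
    rw [← Int.cast_natCast, this, Rat.num_div_den]
  conv_lhs => rw [h3, div_mul_eq_mul_div, div_le_iff₀ h1, mul_comm (b : ℚ)]
  exact_mod_cast Iff.rfl

theorem inNP {ε : ℚ} (hε : 0 ≤ ε) : InNP (proportion c ε) := by
  classical
  have e : proportion c ε = Lang (fun A : List ℤ => A.Nodup ∧ (0 : ℤ) ∉ A ∧
      ∃ S ⊆ A.toFinset, Free c S ∧ ε * (A.length : ℚ) ≤ (S.card : ℚ)) := by
    ext w
    constructor
    · rintro ⟨A, h1, h2, h3, rfl⟩
      exact ⟨A, ⟨h1, h2, h3⟩, rfl⟩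
    · rintro ⟨A, ⟨h1, h2, h3⟩, rfl⟩
      exact ⟨A, h1, h2, h3, rfl⟩
  rw [e]
  set V : List ℤ × List ℤ → Prop := fun p => (p.1.Nodup ∧ ¬ (0 : ℤ) ∈ p.1) ∧
    (p.2.Nodup ∧ ∀ x ∈ p.2, x ∈ p.1) ∧ (Ok (List.ofFn c) k p.2 ∧
      ε.num.toNat * p.1.length ≤ ε.den * p.2.length) with hV
  have hVp : PP V := by
    refine PP.and (PP.and (PP.nodup (by fun_prop)) (PP.not (PP.mem (by fun_prop) (by fun_prop))))
      (PP.and (PP.and (PP.nodup (by fun_prop))
        (PP.ball (p := fun (p : List ℤ × List ℤ) (x : ℤ) => x ∈ p.1) (by fun_prop)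
          (by fun_prop))) (PP.and (pp_ok _ _ (by fun_prop)) (PP.le (by fun_prop) (by fun_prop))))
  refine inNP_Lang (V := fun p => decide (V p)) hVp.decide ((X + 1) * X + 1) ?_ ?_
  · rintro A ⟨h1, h2, S, h3, h4, h5⟩
    refine ⟨S.toList, ?_, ?_⟩
    · have q : size S.toList ≤ (size A + 1) * size A + 1 :=
        SF.size_le_of_subset S.nodup_toList fun x hx => by
          simpa using h3 (by simpa using hx)
      simpa only [eval_add, eval_mul, eval_X, eval_one] using q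
    · simp only [hV, decide_eq_true_eq]
      refine ⟨⟨h1, h2⟩, ⟨S.nodup_toList, fun x hx => by simpa using h3 (by simpa using hx)⟩,
        (ok_iff _).2 (by simpa using h4), ?_⟩
      rw [Finset.length_toList]
      exact (ratio hε _ _).1 h5
  · rintro A W h
    simp only [hV, decide_eq_true_eq] at h
    obtain ⟨⟨h1, h2⟩, ⟨h3, h4⟩, h5, h6⟩ := h
    refine ⟨h1, h2, W.toFinset, fun x hx => by simpa using h4 x (by simpa using hx),
      (ok_iff _).1 h5, ?_⟩
    rw [List.toFinset_card_of_nodup h3]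
    exact (ratio hε _ _).2 h6

end Pool.Agent.U17.PR
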