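import Pool.Agent.U17.PR.Part
import Pool.Agent.U17.PR.Lin
import Pool.Agent.U17.SF.Diss

/-! Items as polynomials with small coefficients, and their values. -/

namespace Pool.Agent.U17.PR

open Finset Polynomial

/-- a graph item, or an element of a copy -/
abbrev Item := Lab ⊕ (ℤ × ℕ)

/-- the coordinate of a label -/
def cd (t : Lab) : ℕ := 2 * Nat.pair (Nat.pair t.1 t.2.1) t.2.2

lemma cd_inj {s t : Lab} : cd s = cd t ↔ s = t := by
  constructor
  · intro h
    have h1 : Nat.pair (Nat.pair s.1 s.2.1) s.2.2 = Nat.pair (Nat.pair t.1 t.2.1) t.2.2 := by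
      unfold cd at h; omega
    rw [Nat.pair_eq_pair, Nat.pair_eq_pair] at h1
    exact Prod.ext h1.1.1 (Prod.ext h1.1.2 h1.2)
  · rintro rfl; rfl

variable {m : ℕ}

/-- the vector of an item -/
noncomputable def vec (c : Fin (m + 3) → ℤ) : Item → ℤ[X]
  | .inl t => if IsE t then
      -(C (c 1) * X ^ cd (t.1, t.1, 0) + C (c 2) * X ^ cd (t.2.1, t.2.1, 0) +
        ∑ i : Fin m, C (c i.succ.succ.succ) * X ^ cd (t.1, t.2.1, (i : ℕ) + 1))
      else C (c 0) * X ^ cd t
  | .inr x => C x.1 * X ^ (2 * x.2 + 1)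

variable {c : Fin (m + 3) → ℤ}

lemma vec_edge {t : Lab} (h : IsE t) : vec c (.inl t) =
    -(C (c 1) * X ^ cd (t.1, t.1, 0) + C (c 2) * X ^ cd (t.2.1, t.2.1, 0) +
        ∑ i : Fin m, C (c i.succ.succ.succ) * X ^ cd (t.1, t.2.1, (i : ℕ) + 1)) := if_pos h

lemma vec_non {t : Lab} (h : ¬ IsE t) : vec c (.inl t) = C (c 0) * X ^ cd t := if_neg h

lemma coeff_cd (t s : Lab) : (vec c (.inl t)).coeff (cd s) = co c t s := by
  by_cases h : IsE t
  · rw [vec_edge h, co, if_pos h]
    simp only [coeff_neg, coeff_add, finsetSum_coeff, coeff_C_mul, coeff_X_pow, cd_inj, mul_ite,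
      mul_one, mul_zero]
  · rw [vec_non h, co_non c h]
    simp only [coeff_C_mul, coeff_X_pow, cd_inj, mul_ite, mul_one, mul_zero]

lemma coeff_odd (t : Lab) (j : ℕ) : (vec c (.inl t)).coeff (2 * j + 1) = 0 := by
  have e : ∀ s : Lab, ¬ 2 * j + 1 = cd s := fun s => by unfold cd; omega
  by_cases h : IsE t
  · rw [vec_edge h]
    simp only [coeff_neg, coeff_add, finsetSum_coeff, coeff_C_mul, coeff_X_pow, e, if_false,
      mul_zero, sum_const_zero, add_zero, neg_zero]
  · rw [vec_non h]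
    simp only [coeff_C_mul, coeff_X_pow, e, if_false, mul_zero]

lemma coeff_even (x : ℤ × ℕ) (s : Lab) : (vec c (.inr x)).coeff (cd s) = 0 := by
  have e : ¬ cd s = 2 * x.2 + 1 := by unfold cd; omega
  simp [vec, coeff_C_mul, coeff_X_pow, e]

lemma coeff_copy (x : ℤ × ℕ) (j : ℕ) :
    (vec c (.inr x)).coeff (2 * j + 1) = if x.2 = j then x.1 else 0 := by
  have e : (2 * j + 1 = 2 * x.2 + 1) ↔ x.2 = j := by omega
  simp only [vec, coeff_C_mul, coeff_X_pow, e, mul_ite, mul_one, mul_zero]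

lemma coeff_even' (x : ℤ × ℕ) (n : ℕ) (hn : ¬ n % 2 = 1) : (vec c (.inr x)).coeff n = 0 := by
  have e : ¬ n = 2 * x.2 + 1 := by omega
  simp [vec, coeff_C_mul, coeff_X_pow, e]

lemma abs_mono (a : ℤ) (n j : ℕ) : |(C a * X ^ n : ℤ[X]).coeff j| ≤ |a| := by
  rw [coeff_C_mul, coeff_X_pow]
  split_ifs <;> simp

/-- a bound for the coefficients -/
def hb (c : Fin (m + 3) → ℤ) (B : Finset ℤ) : ℤ := ∑ i, |c i| + ∑ b ∈ B, |b|

lemma hb_nonneg (B : Finset ℤ) : 0 ≤ hb c B :=
  add_nonneg (sum_nonneg fun _ _ => abs_nonneg _) (sum_nonneg fun _ _ => abs_nonneg _)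

lemma abs_vec {B : Finset ℤ} (x : Item) (hx : ∀ y, x = .inr y → y.1 ∈ B) (j : ℕ) :
    |(vec c x).coeff j| ≤ hb c B := by
  have h0 : (0 : ℤ) ≤ ∑ b ∈ B, |b| := sum_nonneg fun _ _ => abs_nonneg _
  have hs : ∑ i, |c i| = |c 0| + (|c 1| + (|c 2| + ∑ i : Fin m, |c i.succ.succ.succ|)) := by
    rw [Fin.sum_univ_succ, Fin.sum_univ_succ, Fin.sum_univ_succ]; rfl
  have h3 : (0 : ℤ) ≤ ∑ i : Fin m, |c i.succ.succ.succ| := sum_nonneg fun _ _ => abs_nonneg _
  have a0 := abs_nonneg (c 0)
  have a1 := abs_nonneg (c 1)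
  have a2 := abs_nonneg (c 2)
  rcases x with t | y
  · by_cases h1 : IsE t
    · rw [vec_edge h1]
      unfold hb
      rw [hs]
      rw [coeff_neg, abs_neg, coeff_add, coeff_add, finsetSum_coeff]
      have b1 := abs_mono (c 1) (cd (t.1, t.1, 0)) j
      have b2 := abs_mono (c 2) (cd (t.2.1, t.2.1, 0)) j
      have b3 : |∑ i : Fin m, (C (c i.succ.succ.succ) * X ^ cd (t.1, t.2.1, (i : ℕ) + 1) :
          ℤ[X]).coeff j| ≤ ∑ i : Fin m, |c i.succ.succ.succ| :=
        (abs_sum_le_sum_abs _ _).trans (sum_le_sum fun i _ => abs_mono _ _ _)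
      have b4 := abs_add_le ((C (c 1) * X ^ cd (t.1, t.1, 0) : ℤ[X]).coeff j +
        (C (c 2) * X ^ cd (t.2.1, t.2.1, 0) : ℤ[X]).coeff j)
        (∑ i : Fin m, (C (c i.succ.succ.succ) * X ^ cd (t.1, t.2.1, (i : ℕ) + 1) : ℤ[X]).coeff j)
      have b5 := abs_add_le ((C (c 1) * X ^ cd (t.1, t.1, 0) : ℤ[X]).coeff j)
        ((C (c 2) * X ^ cd (t.2.1, t.2.1, 0) : ℤ[X]).coeff j)
      linarith
    · rw [vec_non h1]
      unfold hb
      rw [hs]
      have := abs_mono (c 0) (cd t) j
      linarith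
  · have h4 : |y.1| ≤ ∑ b ∈ B, |b| := single_le_sum (f := fun b : ℤ => |b|)
      (fun _ _ => abs_nonneg _) (hx y rfl)
    have := abs_mono y.1 (2 * y.2 + 1) j
    unfold vec hb
    rw [hs]
    linarith

/-- the base -/
def rad (c : Fin (m + 3) → ℤ) (B : Finset ℤ) : ℤ := 2 * ((∑ i, |c i| + 2) * hb c B) + 1

lemma poly_zero {R h : ℤ} (hR : 2 * h < R) (h0 : 0 ≤ h) (p : ℤ[X]) (hp : ∀ j, |p.coeff j| ≤ h)
    (e : p.eval R = 0) : p = 0 := by
  ext j
  rw [coeff_zero]
  by_cases hj : j < p.natDegree + 1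
  · rw [eval_eq_sum_range] at e
    exact SF.digits hR h0 (p.natDegree + 1) (fun j => p.coeff j) (fun j _ => hp j) e j hj
  · exact coeff_eq_zero_of_natDegree_lt (by omega)

lemma abs_sum_vec {B : Finset ℤ} (z : Fin (m + 3) → Item)
    (hz : ∀ i y, z i = .inr y → y.1 ∈ B) (j : ℕ) :
    |(∑ i, C (c i) * vec c (z i) : ℤ[X]).coeff j| ≤ (∑ i, |c i| + 2) * hb c B := by
  rw [finsetSum_coeff]
  refine (abs_sum_le_sum_abs _ _).trans ?_
  have h0 := hb_nonneg (c := c) B
  calc ∑ i, |(C (c i) * vec c (z i)).coeff j| ≤ ∑ i, |c i| * hb c B := by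
        refine sum_le_sum fun i _ => ?_
        rw [coeff_C_mul, abs_mul]
        exact mul_le_mul_of_nonneg_left (abs_vec (z i) (hz i) j) (abs_nonneg _)
    _ = (∑ i, |c i|) * hb c B := by rw [sum_mul]
    _ ≤ (∑ i, |c i| + 2) * hb c B := by nlinarith

lemma sum_iff {B : Finset ℤ} (z : Fin (m + 3) → Item) (hz : ∀ i y, z i = .inr y → y.1 ∈ B) :
    ∑ i, c i * (vec c (z i)).eval (rad c B) = 0 ↔ ∑ i, C (c i) * vec c (z i) = 0 := by
  have e : ∑ i, c i * (vec c (z i)).eval (rad c B) =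
      (∑ i, C (c i) * vec c (z i)).eval (rad c B) := by
    rw [eval_finsetSum]
    exact sum_congr rfl fun i _ => by rw [eval_mul, eval_C]
  rw [e]
  have h0 := hb_nonneg (c := c) B
  have h1 : (0 : ℤ) ≤ ∑ i, |c i| := sum_nonneg fun _ _ => abs_nonneg _
  constructor
  · exact poly_zero (by unfold rad; omega) (by positivity) _ (abs_sum_vec z hz)
  · intro h; rw [h, eval_zero]

variable (hc : ∀ i, c i ≠ 0)

include hc

lemma vec_inj {x y : Item} (hx : ∀ a, x = .inr a → a.1 ≠ 0) (hy : ∀ a, y = .inr a → a.1 ≠ 0)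
    (h : vec c x = vec c y) : x = y := by
  have main : ∀ t t' : Lab, vec c (.inl t) = vec c (.inl t') → ¬ IsE t → t = t' := by
    intro t t' h ht
    have h1 := congrArg (fun p => p.coeff (cd t)) h
    simp only [coeff_cd] at h1
    rw [co_non c ht, if_pos rfl] at h1
    by_cases ht' : IsE t'
    · exfalso
      obtain ⟨a, b, i⟩ := t'
      obtain ⟨q1, q2⟩ := ht'
      simp only at q1 q2
      subst q1
      have r1 := congrArg (fun p => p.coeff (cd (a, a, 0))) h
      have r2 := congrArg (fun p => p.coeff (cd (b, b, 0))) h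
      simp only [coeff_cd] at r1 r2
      rw [co_non c ht, co_vert c q2, if_pos rfl, if_neg q2.ne, add_zero] at r1
      rw [co_non c ht, co_vert c q2, if_pos rfl, if_neg q2.ne', zero_add] at r2
      by_cases e1 : ((a, a, 0) : Lab) = t
      · by_cases e2 : ((b, b, 0) : Lab) = t
        · have := e1.trans e2.symm
          simp only [Prod.mk.injEq] at this
          omega
        · rw [if_neg e2] at r2
          exact neg_ne_zero.2 (hc 2) r2.symm
      · rw [if_neg e1] at r1
        exact neg_ne_zero.2 (hc 1) r1.symm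
    · rw [co_non c ht'] at h1
      by_cases e : t = t'
      · exact e
      · rw [if_neg e] at h1; exact absurd h1 (hc 0)
  rcases x with t | x <;> rcases y with t' | y
  · by_cases ht : IsE t
    · by_cases ht' : IsE t'
      · obtain ⟨a, b, i⟩ := t
        obtain ⟨q1, q2⟩ := ht
        obtain ⟨a', b', i'⟩ := t'
        obtain ⟨q3, q4⟩ := ht'
        simp only at q1 q2 q3 q4
        subst q1 q3
        have r1 := congrArg (fun p => p.coeff (cd (a, a, 0))) h
        have r2 := congrArg (fun p => p.coeff (cd (b, b, 0))) h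
        simp only [coeff_cd] at r1 r2
        rw [co_vert c q2, co_vert c q4, if_pos rfl, if_neg q2.ne, add_zero] at r1
        rw [co_vert c q2, co_vert c q4, if_pos rfl, if_neg q2.ne', zero_add] at r2
        have s1 : a = a' ∨ a = b' := by
          by_contra hcon
          push Not at hcon
          rw [if_neg hcon.1, if_neg hcon.2] at r1
          exact neg_ne_zero.2 (hc 1) (by simpa using r1)
        have s2 : b = a' ∨ b = b' := by
          by_contra hcon
          push Not at hcon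
          rw [if_neg hcon.1, if_neg hcon.2] at r2
          exact neg_ne_zero.2 (hc 2) (by simpa using r2)
        have s3 : a = a' ∧ b = b' := by omega
        rw [s3.1, s3.2]
      · rw [main t' t h.symm ht']
    · rw [main t t' h ht]
  · exfalso
    have h1 := congrArg (fun p => p.coeff (2 * y.2 + 1)) h
    simp only [coeff_odd, coeff_copy, if_true] at h1
    exact hy y rfl h1.symm
  · exfalso
    have h1 := congrArg (fun p => p.coeff (2 * x.2 + 1)) h
    simp only [coeff_odd, coeff_copy, if_true] at h1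
    exact hx x rfl h1
  · have h1 := congrArg (fun p => p.coeff (2 * x.2 + 1)) h
    simp only [coeff_copy, if_true] at h1
    by_cases e : y.2 = x.2
    · rw [if_pos e] at h1
      rw [Prod.ext h1 e.symm]
    · rw [if_neg e] at h1
      exact absurd h1 (hx x rfl)

lemma eval_inj {B : Finset ℤ} {x y : Item} (hB : (0 : ℤ) ∉ B) (hx : ∀ a, x = .inr a → a.1 ∈ B)
    (hy : ∀ a, y = .inr a → a.1 ∈ B)
    (h : (vec c x).eval (rad c B) = (vec c y).eval (rad c B)) : x = y := by
  refine vec_inj hc (fun a e h0 => hB (h0 ▸ hx a e)) (fun a e h0 => hB (h0 ▸ hy a e)) ?_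
  have h0 := hb_nonneg (c := c) B
  have h1 : (0 : ℤ) ≤ ∑ i, |c i| := sum_nonneg fun _ _ => abs_nonneg _
  refine sub_eq_zero.1 (poly_zero (R := rad c B) (h := 2 * hb c B) (by unfold rad; nlinarith)
    (by positivity) _ (fun j => ?_) (by rw [eval_sub, h, sub_self]))
  rw [coeff_sub]
  have b1 := abs_vec (c := c) x hx j
  have b2 := abs_vec (c := c) y hy j
  have b3 := abs_sub ((vec c x).coeff j) ((vec c y).coeff j)
  linarith

end Pool.Agent.U17.PR
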