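import Pool.Agent.U17.PR.Key

/-! Partial solutions among the items of a graph. -/

namespace Pool.Agent.U17.PR

open Finset

variable {m : ℕ} {c : Fin (m + 3) → ℤ}

/-- The tuple `z` contains a vertex pair together with the pair and its private items. -/
def Full (m : ℕ) (P : Lab → Prop) : Prop := ∃ u v, u < v ∧ P (u, v, 0) ∧ P (u, u, 0) ∧ P (v, v, 0) ∧
  ∀ i : Fin m, P (u, v, (i : ℕ) + 1)

theorem partial_sol (hc : ∀ i, c i ≠ 0) (h12 : c 1 + c 2 ≠ 0) (I : Finset (Fin (m + 3)))
    (z : Fin (m + 3) → Lab) (h : ∀ s, ∑ i ∈ I, c i * co c (z i) s = 0) :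
    (∑ i ∈ I, c i = 0) ∨ (I = univ ∧ Full m fun t => ∃ i, z i = t) := by
  classical
  set γ : Lab → ℤ := fun t => ∑ i ∈ I.filter (fun i => z i = t), c i with hγ
  set Γ : Finset Lab := (I.image z).filter fun t => γ t ≠ 0 with hΓ
  have group : ∀ F : Lab → ℤ, ∑ i ∈ I, c i * F (z i) = ∑ t ∈ Γ, γ t * F t := by
    intro F
    have e : ∑ t ∈ Γ, γ t * F t = ∑ t ∈ I.image z, γ t * F t := by
      rw [hΓ]
      refine sum_filter_of_ne fun t _ hne => ?_
      intro hz
      exact hne (by rw [hz, zero_mul])
    rw [e, ← sum_fiberwise_of_maps_to (t := I.image z) (g := z) fun i hi => mem_image_of_mem z hi]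
    refine sum_congr rfl fun t _ => ?_
    rw [hγ, sum_mul]
    exact sum_congr rfl fun i hi => by rw [(mem_filter.1 hi).2]
  rcases Γ.eq_empty_or_nonempty with he | hne
  · left
    have := group fun _ => 1
    simpa [he] using this
  · right
    have hcard : Γ.card ≤ I.card := (card_filter_le _ _).trans card_image_le
    have hI : I.card ≤ m + 3 := by simpa using card_le_univ I
    obtain ⟨u, v, huv, k1, k2, k3, k4⟩ := key hc h12 (Γ := Γ) (γ := γ)
      (fun t ht => (mem_filter.1 ht).2) (fun s => by rw [← group]; exact h s)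
      (hcard.trans hI) hne
    have hz : ∀ t ∈ Γ, ∃ i, z i = t := fun t ht => by
      obtain ⟨i, -, e⟩ := mem_image.1 (mem_filter.1 ht).1
      exact ⟨i, e⟩
    refine ⟨?_, u, v, huv, hz _ k1, hz _ k2, hz _ k3, fun i => hz _ (k4 i)⟩
    -- the count
    have hsub : ({(u, v, 0), (u, u, 0), (v, v, 0)} : Finset Lab) ∪
        univ.image (fun i : Fin m => ((u, v, (i : ℕ) + 1) : Lab)) ⊆ Γ := by
      intro t ht
      rcases mem_union.1 ht with ht | ht
      · simp only [mem_insert, mem_singleton] at ht
        rcases ht with rfl | rfl | rfl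
        exacts [k1, k2, k3]
      · obtain ⟨i, -, rfl⟩ := mem_image.1 ht
        exact k4 i
    have c3 : ({(u, v, 0), (u, u, 0), (v, v, 0)} : Finset Lab).card = 3 := by
      rw [card_insert_of_notMem, card_insert_of_notMem, card_singleton]
      · simp only [mem_singleton, Prod.mk.injEq]; omega
      · simp only [mem_insert, mem_singleton, Prod.mk.injEq]; omega
    have cE : (univ.image (fun i : Fin m => ((u, v, (i : ℕ) + 1) : Lab))).card = m := by
      rw [card_image_of_injective, card_univ, Fintype.card_fin]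
      intro i j e
      simp only [Prod.mk.injEq, true_and, add_left_inj] at e
      exact Fin.ext e
    have d : Disjoint ({(u, v, 0), (u, u, 0), (v, v, 0)} : Finset Lab)
        (univ.image (fun i : Fin m => ((u, v, (i : ℕ) + 1) : Lab))) := by
      rw [disjoint_left]
      intro t h1 h2
      obtain ⟨i, -, rfl⟩ := mem_image.1 h2
      simp at h1
    have hle := card_le_card hsub
    rw [card_union_of_disjoint d, c3, cE] at hle
    refine (card_eq_iff_eq_univ I).1 ?_
    rw [Fintype.card_fin]
    omega

end Pool.Agent.U17.PR
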