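import Pool.Agent.U17.PR.Trans
import Pool.Agent.U17.PR.Member
import Pool.Agent.U17.SF.PTime

/-! The reduction from CLIQUE to the proportion problem. -/

namespace Pool.Agent.U17.PR

open Pool.Agent.Cx Polynomial

variable {α : Type} [Enc α]

lemma pt_cd {t : α → Lab} (ht : PT t) : PT fun a => cd (t a) := by
  unfold cd
  have h1 : PT fun a => (t a).1 := ht.fst
  have h2 : PT fun a => (t a).2.1 := ht.snd.fst
  have h3 : PT fun a => (t a).2.2 := ht.snd.snd
  fun_prop

lemma pt_sumFin : ∀ (m : ℕ) (f : Fin m → α → ℤ), (∀ i, PT (f i)) → PT fun a => ∑ i, f i a := by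
  intro m
  induction m with
  | zero => intro f _; exact (PT.const (0 : ℤ)).of_eq fun a => by simp
  | succ m ih =>
    intro f hf
    exact ((hf 0).addZ (ih (fun i => f i.succ) fun i => hf _)).of_eq fun a => by
      rw [Fin.sum_univ_succ]

variable {m : ℕ}

/-- the integer of a label -/
def lval (c : Fin (m + 3) → ℤ) (R : ℤ) (t : Lab) : ℤ :=
  if IsE t then -(c 1 * R ^ cd (t.1, t.1, 0) + c 2 * R ^ cd (t.2.1, t.2.1, 0) +
    ∑ i : Fin m, c i.succ.succ.succ * R ^ cd (t.1, t.2.1, (i : ℕ) + 1))
  else c 0 * R ^ cd t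

variable {c : Fin (m + 3) → ℤ} {B : Finset ℤ}

lemma ival_inl (t : Lab) : ival c B (.inl t) = lval c (rad c B) t := by
  unfold ival lval
  by_cases h : IsE t
  · rw [vec_edge h, if_pos h]
    simp only [eval_neg, eval_add, eval_finsetSum, eval_mul, eval_C, eval_pow, eval_X]
  · rw [vec_non h, if_neg h]
    simp only [eval_mul, eval_C, eval_pow, eval_X]

lemma ival_inr (x : ℤ × ℕ) : ival c B (.inr x) = x.1 * rad c B ^ (2 * x.2 + 1) := by
  unfold ival vec
  simp only [eval_mul, eval_C, eval_pow, eval_X]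

lemma pt_lval (c : Fin (m + 3) → ℤ) (R : ℤ) {t : α → Lab} (ht : PT t) :
    PT fun a => lval c R (t a) := by
  have h1 : PT fun a => (t a).1 := ht.fst
  have h2 : PT fun a => (t a).2.1 := ht.snd.fst
  have h3 : PT fun a => (t a).2.2 := ht.snd.snd
  have hm : ∀ (x : ℤ) {s : α → Lab}, PT s → PT fun a => x * R ^ cd (s a) := fun x s hs => by
    have := pt_cd hs
    exact (PT.const x).mulZ ((PT.const R).powZ this)
  unfold lval
  refine PP.ite ?_ ?_ (hm _ ht)
  · unfold IsE
    exact PP.and (PP.eq h3 (PT.const 0)) (PP.lt h1 h2)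
  · refine PT.negZ (PT.addZ (PT.addZ (hm _ (h1.pair (h1.pair (PT.const 0))))
      (hm _ (h2.pair (h2.pair (PT.const 0))))) (pt_sumFin m _ fun i => hm _ ?_))
    exact h1.pair (h2.pair (PT.const _))

/-- the pairs which are not joined -/
def prsL (M : List (List Bool)) : List (ℕ × ℕ) :=
  ((List.range M.length) ×ˢ (List.range M.length)).filter fun p =>
    decide (p.1 < p.2 ∧ ¬ (ent M p.1 p.2 = true ∧ ent M p.2 p.1 = true))

/-- the labels -/
def labL (m : ℕ) (M : List (List Bool)) (T : ℕ) : List Lab :=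
  (List.range (M.length + T)).map (fun u => (u, u, 0)) ++
    ((prsL M) ×ˢ (List.range (m + 1))).map fun x => (x.1.1, x.1.2, x.2)

/-- the integers -/
noncomputable def AL (c : Fin (m + 3) → ℤ) (B : Finset ℤ) (M : List (List Bool)) (T J : ℕ) :
    List ℤ :=
  (labL m M T).map (fun t => lval c (rad c B) t) ++
    (B.toList ×ˢ List.range J).map fun x => x.1 * rad c B ^ (2 * x.2 + 1)

/-- the items -/
noncomputable def PL (m : ℕ) (B : Finset ℤ) (M : List (List Bool)) (T J : ℕ) : List Item :=
  (labL m M T).map .inl ++ (B.toList ×ˢ List.range J).map .inr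

lemma AL_eq (M : List (List Bool)) (T J : ℕ) : AL c B M T J = (PL m B M T J).map (ival c B) := by
  unfold AL PL
  rw [List.map_append, List.map_map, List.map_map]
  congr 1
  · exact List.map_congr_left fun t _ => (ival_inl t).symm
  · exact List.map_congr_left fun x _ => (ival_inr x).symm

lemma nodup_prsL (M : List (List Bool)) : (prsL M).Nodup :=
  (List.nodup_range.product List.nodup_range).filter _

lemma toFinset_prsL (M : List (List Bool)) :
    (prsL M).toFinset = prs M.length (fun u v => ent M u v = true) := by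
  ext ⟨u, v⟩
  have e : (u, v) ∈ List.range M.length ×ˢ List.range M.length ↔ u < M.length ∧ v < M.length := by
    simp
  simp only [prsL, List.mem_toFinset, List.mem_filter, decide_eq_true_eq, mem_prs, e]

lemma length_prsL (M : List (List Bool)) :
    (prsL M).length = (prs M.length (fun u v => ent M u v = true)).card := by
  rw [← toFinset_prsL, List.toFinset_card_of_nodup (nodup_prsL M)]

lemma nodup_labL (M : List (List Bool)) (T : ℕ) : (labL m M T).Nodup := by
  refine List.Nodup.append ?_ ?_ ?_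
  · exact List.nodup_range.map fun u v h => (Prod.mk.inj h).1
  · refine ((nodup_prsL M).product List.nodup_range).map ?_
    rintro ⟨⟨a, b⟩, i⟩ ⟨⟨a', b'⟩, i'⟩ h
    simp only [Prod.mk.injEq] at h ⊢
    exact ⟨⟨h.1, h.2.1⟩, h.2.2⟩
  · intro t h1 h2
    obtain ⟨u, -, rfl⟩ := List.mem_map.1 h1
    obtain ⟨x, hx, e⟩ := List.mem_map.1 h2
    have h3 : x.1 ∈ prsL M := by
      have : x ∈ prsL M ×ˢ List.range (m + 1) := hx
      obtain ⟨x1, x2⟩ := x
      exact (List.pair_mem_product.1 this).1
    rw [← List.mem_toFinset, toFinset_prsL, mem_prs] at h3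
    simp only [Prod.mk.injEq] at e
    omega

lemma nodup_PL (M : List (List Bool)) (T J : ℕ) : (PL m B M T J).Nodup := by
  refine List.Nodup.append ?_ ?_ ?_
  · exact (nodup_labL M T).map Sum.inl_injective
  · exact (B.nodup_toList.product List.nodup_range).map Sum.inr_injective
  · intro x h1 h2
    obtain ⟨t, -, rfl⟩ := List.mem_map.1 h1
    obtain ⟨y, -, e⟩ := List.mem_map.1 h2
    cases e

lemma toFinset_PL (M : List (List Bool)) (T J : ℕ) : (PL m B M T J).toFinset =
    (verts (M.length + T) ∪ pits m M.length (fun u v => ent M u v = true)).disjSum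
      (B ×ˢ Finset.range J) := by
  ext x
  rw [List.mem_toFinset, PL, List.mem_append]
  rcases x with t | x
  · rw [Finset.inl_mem_disjSum, Finset.mem_union, verts, pits, ← toFinset_prsL]
    simp only [labL, List.mem_map, List.mem_append, Sum.inl.injEq, exists_eq_right, reduceCtorEq,
      and_false, exists_false, or_false, Finset.mem_image, Finset.mem_product, List.mem_toFinset,
      Finset.mem_range, List.mem_range]
    refine or_congr Iff.rfl (exists_congr fun x => and_congr_left fun _ => ?_)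
    obtain ⟨x1, x2⟩ := x
    have e : (x1, x2) ∈ prsL M ×ˢ List.range (m + 1) ↔ x1 ∈ prsL M ∧ x2 ∈ List.range (m + 1) :=
      List.pair_mem_product
    rw [e, List.mem_range]
  · rw [Finset.inr_mem_disjSum]
    obtain ⟨x1, x2⟩ := x
    simp

lemma hPB (M : List (List Bool)) (T J : ℕ) : ∀ x ∈ (verts (M.length + T) ∪
    pits m M.length (fun u v => ent M u v = true)).disjSum (B ×ˢ Finset.range J),
    ∀ y, x = .inr y → y.1 ∈ B := by
  rintro x hx y rfl
  exact (Finset.mem_product.1 (Finset.inr_mem_disjSum.1 hx)).1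

lemma length_AL (M : List (List Bool)) (T J : ℕ) : (AL c B M T J).length =
    M.length + T + (m + 1) * (prsL M).length + J * B.card := by
  simp only [AL, labL, List.length_append, List.length_map, List.length_range, List.length_product,
    Finset.length_toList]
  ring

/-- the number of copies -/
def JJ (m P Q J2 e e' : ℕ) (M : List (List Bool)) (k0 : ℕ) : ℕ :=
  J2 + ((Q * ((m + 1) * (prsL M).length + k0) + Q * e) -
    (P * (M.length + (m + 1) * (prsL M).length) + Q * e'))

/-- the number of isolated vertices -/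
def TT (m P Q W b J2 e e' : ℕ) (M : List (List Bool)) (k0 : ℕ) : ℕ :=
  (((P * b - Q * W) * JJ m P Q J2 e e' M k0 +
    (P * (M.length + (m + 1) * (prsL M).length) + Q * e')) -
      (Q * ((m + 1) * (prsL M).length + k0) + Q * e) + (Q - P - 1)) / (Q - P)

lemma pt_prsL : PT fun M : List (List Bool) => prsL M := by
  unfold prsL
  refine PT.filter (f := fun (M : List (List Bool)) (p : ℕ × ℕ) =>
    decide (p.1 < p.2 ∧ ¬ (ent M p.1 p.2 = true ∧ ent M p.2 p.1 = true)))
    (PP.decide (by fun_prop)) (by fun_prop)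

lemma pt_AL (c : Fin (m + 3) → ℤ) (B : Finset ℤ) {M : α → List (List Bool)} {T J : α → ℕ}
    (hM : PT M) (hT : PT T) (hJ : PT J) : PT fun a => AL c B (M a) (T a) (J a) := by
  have h1 : PT fun a => prsL (M a) := PT.comp pt_prsL hM
  have h2 : PT fun a => labL m (M a) (T a) := by
    unfold labL
    refine PT.append ?_ ?_
    · exact PT.map (f := fun (_ : α) (u : ℕ) => ((u, u, 0) : Lab)) (by fun_prop) (by fun_prop)
    · exact PT.map (f := fun (_ : α) (x : (ℕ × ℕ) × ℕ) => ((x.1.1, x.1.2, x.2) : Lab))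
        (by fun_prop) (PT.product h1 (PT.const _))
  unfold AL
  refine PT.append (PT.map (f := fun (_ : α) (t : Lab) => lval c (rad c B) t)
    (pt_lval c _ PT.id.snd) h2) ?_
  refine PT.map (f := fun (_ : α) (x : ℤ × ℕ) => x.1 * rad c B ^ (2 * x.2 + 1)) ?_
    (PT.product (PT.const _) hJ.range)
  generalize rad c B = R
  fun_prop

lemma pt_JJ (m P Q J2 e e' : ℕ) :
    PT fun p : List (List Bool) × ℕ => JJ m P Q J2 e e' p.1 p.2 := by
  have h1 : PT fun p : List (List Bool) × ℕ => (prsL p.1).length :=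
    (PT.comp pt_prsL PT.id.fst).length
  unfold JJ
  fun_prop

lemma pt_TT (m P Q W b J2 e e' : ℕ) :
    PT fun p : List (List Bool) × ℕ => TT m P Q W b J2 e e' p.1 p.2 := by
  have h1 : PT fun p : List (List Bool) × ℕ => (prsL p.1).length :=
    (PT.comp pt_prsL PT.id.fst).length
  have h2 := pt_JJ m P Q J2 e e'
  unfold TT
  generalize P * b - Q * W = a2
  generalize Q - P - 1 = a3
  generalize Q - P = a1
  fun_prop

variable (hc : ∀ i, c i ≠ 0) (h12 : c 1 + c 2 ≠ 0) (hs : ∑ i, c i ≠ 0) (hB : (0 : ℤ) ∉ B)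

include hc hB

lemma nodup_AL (M : List (List Bool)) (T J : ℕ) : (AL c B M T J).Nodup := by
  rw [AL_eq]
  refine (nodup_PL M T J).map_on fun x hx y hy h => ?_
  have e : ∀ x ∈ PL m B M T J, x ∈ (verts (M.length + T) ∪
      pits m M.length (fun u v => ent M u v = true)).disjSum (B ×ˢ Finset.range J) := fun x hx => by
    rw [← toFinset_PL, List.mem_toFinset]; exact hx
  exact ival_inj hc hB (hPB M T J) (Finset.mem_coe.2 (e x hx)) (Finset.mem_coe.2 (e y hy)) h

lemma zero_AL (M : List (List Bool)) (T J : ℕ) : (0 : ℤ) ∉ AL c B M T J := by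
  rw [AL_eq]
  intro h
  obtain ⟨x, hx, e⟩ := List.mem_map.1 h
  have : x ∈ (verts (M.length + T) ∪
      pits m M.length (fun u v => ent M u v = true)).disjSum (B ×ˢ Finset.range J) := by
    rw [← toFinset_PL, List.mem_toFinset]; exact hx
  exact ival_ne hc hB (hPB M T J x this) e

include h12 hs

theorem main_iff {ε : ℚ} (h0 : 0 ≤ ε) (h1 : ε < 1) {W e e' J2 : ℕ}
    (hg : ∀ J, J2 ≤ J → (gmax c B J : ℤ) = W * J + ((e : ℤ) - e'))
    (hW : ε.den * W < ε.num.toNat * B.card) (M : List (List Bool)) (k0 : ℕ) :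
    HasClq M k0 ↔ ∃ S ⊆ (AL c B M (TT m ε.num.toNat ε.den W B.card J2 e e' M k0)
        (JJ m ε.num.toNat ε.den J2 e e' M k0)).toFinset, Free c S ∧
      ε * ((AL c B M (TT m ε.num.toNat ε.den W B.card J2 e e' M k0)
        (JJ m ε.num.toNat ε.den J2 e e' M k0)).length : ℚ) ≤ (S.card : ℚ) := by
  set P := ε.num.toNat with hP
  set Q := ε.den with hQ
  have hPQ : P < Q := by
    have h3 : ε.num < ε.den := by
      exact Rat.num_lt_denom_iff.2 h1
    have h4 := Rat.num_nonneg.2 h0
    omega
  set J := JJ m P Q J2 e e' M k0 with hJ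
  set T := TT m P Q W B.card J2 e e' M k0 with hT
  have hJ2 : J2 ≤ J := by rw [hJ]; unfold JJ; omega
  have htf : (AL c B M T J).toFinset = ((verts (M.length + T) ∪
      pits m M.length (fun u v => ent M u v = true)).disjSum
        (B ×ˢ Finset.range J)).image (ival c B) := by
    rw [← toFinset_PL, AL_eq]
    ext z
    simp
  have q1 : HasClq M k0 ↔ Clique M.length (fun u v => ent M u v = true) k0 := Iff.rfl
  rw [q1, clique_iff (m := m) (T := T), ← parts_iff hc h12 hs _ B J, ← transfer hc hB (hPB M T J),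
    htf]
  refine exists_congr fun S => and_congr_right fun _ => and_congr_right fun _ => ?_
  rw [ratio h0, length_AL, ← hP, ← hQ]
  have := tune (x := S.card) hPQ hW (J := J) (T := T) (J2 := J2) (n := M.length)
    (ne := (m + 1) * (prsL M).length) (k0 := k0) (e := e) (e' := e') rfl rfl (hg J hJ2)
  rw [this, length_prsL]

end Pool.Agent.U17.PR
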