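import Pool.Agent.U17.PR.Cnt
import Pool.Agent.U17.PR.Defs

/-! From items to integers, and the arithmetic of the padding. -/

namespace Pool.Agent.U17.PR

open Finset Polynomial

variable {m : ℕ} {c : Fin (m + 3) → ℤ} {B : Finset ℤ}

variable (c B) in
/-- the integer of an item -/
noncomputable def ival (x : Item) : ℤ := (vec c x).eval (rad c B)

variable (hc : ∀ i, c i ≠ 0) (hB : (0 : ℤ) ∉ B)

include hc hB

lemma ival_inj {P : Finset Item} (hP : ∀ x ∈ P, ∀ y, x = .inr y → y.1 ∈ B) :
    Set.InjOn (ival c B) (P : Set Item) := fun x hx y hy h =>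
  eval_inj hc hB (hP x (mem_coe.1 hx)) (hP y (mem_coe.1 hy)) h

lemma ival_ne {x : Item} (hx : ∀ y, x = .inr y → y.1 ∈ B) : ival c B x ≠ 0 := by
  intro h
  have h0 := hb_nonneg (c := c) B
  have h1 : (0 : ℤ) ≤ ∑ i, |c i| := sum_nonneg fun _ _ => abs_nonneg _
  have h2 : vec c x = 0 := poly_zero (R := rad c B) (h := hb c B) (by unfold rad; nlinarith) h0 _
    (abs_vec x hx) h
  rcases x with t | y
  · by_cases ht : IsE t
    · obtain ⟨u, v, i⟩ := t
      obtain ⟨q1, q2⟩ := ht
      simp only at q1 q2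
      subst q1
      have := congrArg (fun p => p.coeff (cd (u, u, 0))) h2
      simp only [coeff_cd, coeff_zero] at this
      rw [co_vert c q2, if_pos rfl, if_neg q2.ne, add_zero] at this
      exact neg_ne_zero.2 (hc 1) this
    · have := congrArg (fun p => p.coeff (cd t)) h2
      simp only [coeff_cd, coeff_zero] at this
      rw [co_non c ht, if_pos rfl] at this
      exact hc 0 this
  · have := congrArg (fun p => p.coeff (2 * y.2 + 1)) h2
    simp only [coeff_copy, coeff_zero, if_true] at this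
    exact hB (this ▸ hx y rfl)

lemma transfer {P : Finset Item} (hP : ∀ x ∈ P, ∀ y, x = .inr y → y.1 ∈ B) (K : ℕ) :
    (∃ S ⊆ P.image (ival c B), Free c S ∧ K ≤ S.card) ↔ ∃ F ⊆ P, ItemFree c F ∧ K ≤ F.card := by
  classical
  have inj := ival_inj hc hB hP
  constructor
  · rintro ⟨S, h1, h2, h3⟩
    set F := P.filter fun x => ival c B x ∈ S with hF
    have hFS : F.image (ival c B) = S := by
      ext z
      simp only [mem_image, hF, mem_filter]
      constructor
      · rintro ⟨p, ⟨_, hp⟩, rfl⟩; exact hp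
      · intro hz
        obtain ⟨p, hp, rfl⟩ := mem_image.1 (h1 hz)
        exact ⟨p, ⟨hp, hz⟩, rfl⟩
    have hFP : F ⊆ P := filter_subset _ _
    refine ⟨F, hFP, fun z hz e => ?_, ?_⟩
    · refine h2 (fun i => ival c B (z i)) (fun i => (mem_filter.1 (hz i)).2) ?_
      exact (sum_iff z fun i y hy => hP _ (hFP (hz i)) y hy).2 e
    · rw [← card_image_of_injOn (inj.mono (by exact_mod_cast hFP)), hFS]
      exact h3
  · rintro ⟨F, h1, h2, h3⟩
    refine ⟨F.image (ival c B), image_subset_image h1, fun x hx e => ?_, ?_⟩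
    · have : ∀ i, ∃ y ∈ F, ival c B y = x i := fun i => mem_image.1 (hx i)
      choose z hz hzx using this
      refine h2 z hz ((sum_iff z fun i y hy => hP _ (h1 (hz i)) y hy).1 ?_)
      rw [← e]
      exact sum_congr rfl fun i _ => by rw [← hzx]; rfl
    · rw [card_image_of_injOn (inj.mono (by exact_mod_cast h1))]
      exact h3

omit hc hB

/-- the arithmetic of the padding -/
lemma tune {P Q W e b J2 ne n k0 g x J T : ℕ} {e' : ℕ} (hPQ : P < Q) (hW : Q * W < P * b)
    (hJ : J = J2 + ((Q * (ne + k0) + Q * e) - (P * (n + ne) + Q * e')))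
    (hT : T = (((P * b - Q * W) * J + (P * (n + ne) + Q * e')) - (Q * (ne + k0) + Q * e) +
      (Q - P - 1)) / (Q - P))
    (hg : (g : ℤ) = W * J + ((e : ℤ) - e')) :
    P * (n + T + ne + J * b) ≤ Q * x ↔ ne + k0 + T + g ≤ x := by
  set X1 := Q * (ne + k0) + Q * e with hX1
  set X2 := P * (n + ne) + Q * e' with hX2
  obtain ⟨a1, ha1⟩ : ∃ a1, Q = P + a1 := ⟨Q - P, by omega⟩
  obtain ⟨a2, ha2⟩ : ∃ a2, P * b = Q * W + a2 := ⟨P * b - Q * W, by omega⟩
  have h1 : Q - P = a1 := by omega
  have h2 : P * b - Q * W = a2 := by omega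
  have a1p : 0 < a1 := by omega
  have a2p : 0 < a2 := by omega
  rw [h1, h2] at hT
  have h3 : X1 ≤ a2 * J + X2 := by
    have : J ≤ a2 * J := Nat.le_mul_of_pos_left J a2p
    omega
  obtain ⟨Y, hY⟩ : ∃ Y, a2 * J + X2 = X1 + Y := ⟨a2 * J + X2 - X1, by omega⟩
  have h4 : a2 * J + X2 - X1 = Y := by omega
  rw [h4] at hT
  have h5 : Y ≤ a1 * T := by
    have := Nat.lt_div_mul_add a1p (a := Y + (a1 - 1))
    rw [← hT] at this
    have e1 : T * a1 = a1 * T := mul_comm _ _
    omega
  have h6 : a1 * T < Y + a1 := by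
    have := Nat.div_mul_le_self (Y + (a1 - 1)) a1
    rw [← hT] at this
    have e1 : T * a1 = a1 * T := mul_comm _ _
    omega
  have key : (Q : ℤ) * (ne + k0 + T + g) = P * (n + T + ne + J * b) + (a1 * T - Y) := by
    have i1 : (Q : ℤ) = P + a1 := by exact_mod_cast ha1
    have i2 : (P : ℤ) * b = Q * W + a2 := by exact_mod_cast ha2
    have i3 : (a2 : ℤ) * J + (P * (n + ne) + Q * e') = (Q * (ne + k0) + Q * e) + Y := by
      have := hY
      rw [hX1, hX2] at this
      exact_mod_cast this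
    rw [hg]
    have i4 : (P : ℤ) * (J * b) = (Q * W + a2) * J := by rw [← i2]; ring
    have i5 : (P : ℤ) * (n + T + ne + J * b) = P * (n + ne) + P * T + (Q * W + a2) * J := by
      rw [← i4]; ring
    rw [i5]
    have i6 : (Q : ℤ) * T = P * T + a1 * T := by rw [i1]; ring
    linear_combination i6 - i3
  constructor
  · intro h
    by_contra hlt
    push Not at hlt
    have j1 : (Q : ℤ) * (x + 1) ≤ Q * (ne + k0 + T + g) := by
      refine mul_le_mul_of_nonneg_left ?_ (by positivity)
      exact_mod_cast hlt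
    have j2 : (P : ℤ) * (n + T + ne + J * b) ≤ Q * x := by exact_mod_cast h
    have j3 : (a1 : ℤ) * T < Y + a1 := by exact_mod_cast h6
    have j4 : (Q : ℤ) = P + a1 := by exact_mod_cast ha1
    have j5 : (0 : ℤ) ≤ P := by positivity
    rw [key] at j1
    have j6 : (Q : ℤ) * (x + 1) = Q * x + Q := by ring
    linarith
  · intro h
    have j1 : (Q : ℤ) * (ne + k0 + T + g) ≤ Q * x := by
      refine mul_le_mul_of_nonneg_left ?_ (by positivity)
      exact_mod_cast h
    have j3 : (Y : ℤ) ≤ a1 * T := by exact_mod_cast h5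
    rw [key] at j1
    have : (P : ℤ) * (n + T + ne + J * b) ≤ Q * x := by linarith
    exact_mod_cast this

end Pool.Agent.U17.PR
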