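import Pool.Agent.U17.PR.Mix

/-! Solution-free sets of items: the graph part and the copies do not interact. -/

namespace Pool.Agent.U17.PR

open Finset Polynomial

variable {m : ℕ} {c : Fin (m + 3) → ℤ}

variable (c) in
/-- no solution among the items of `F` -/
def ItemFree (F : Finset Item) : Prop :=
  ∀ z : Fin (m + 3) → Item, (∀ i, z i ∈ F) → ∑ i, C (c i) * vec c (z i) ≠ 0

lemma full_sol {F : Finset Item} (h : Full m fun t => (.inl t : Item) ∈ F) : ¬ ItemFree c F := by
  obtain ⟨u, v, huv, k1, k2, k3, k4⟩ := h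
  intro hF
  refine hF (Fin.cons (.inl (u, v, 0)) (Fin.cons (.inl (u, u, 0)) (Fin.cons (.inl (v, v, 0))
    fun i : Fin m => .inl (u, v, (i : ℕ) + 1)))) (fun i => ?_) ?_
  · refine Fin.cases ?_ (fun i => ?_) i
    · exact k1
    refine Fin.cases ?_ (fun i => ?_) i
    · exact k2
    refine Fin.cases ?_ (fun i => ?_) i
    · exact k3
    · exact k4 i
  · rw [Fin.sum_univ_succ, Fin.sum_univ_succ, Fin.sum_univ_succ]
    simp only [Fin.cons_zero, Fin.cons_succ]
    rw [vec_edge (show IsE (u, v, 0) from ⟨rfl, huv⟩), vec_non (show ¬ IsE (u, u, 0) from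
      fun h => lt_irrefl _ h.2), vec_non (show ¬ IsE (v, v, 0) from fun h => lt_irrefl _ h.2)]
    have e : ∀ i : Fin m, vec c (.inl (u, v, (i : ℕ) + 1)) =
        C (c 0) * X ^ cd (u, v, (i : ℕ) + 1) := fun i => vec_non (fun h => by
      have := h.1; simp at this)
    simp only [e]
    have e1 : c (Fin.succ 0) = c 1 := rfl
    have e2 : c (Fin.succ (Fin.succ 0)) = c 2 := rfl
    rw [e1, e2]
    have e3 : ∑ i : Fin m, C (c i.succ.succ.succ) * (C (c 0) * X ^ cd (u, v, (i : ℕ) + 1)) =
        C (c 0) * ∑ i : Fin m, C (c i.succ.succ.succ) * (X : ℤ[X]) ^ cd (u, v, (i : ℕ) + 1) := by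
      rw [mul_sum]; exact sum_congr rfl fun i _ => by ring
    rw [e3]
    ring

/-- the members of the copies in `F` -/
def fam (F : Finset Item) (j : ℕ) : Finset ℤ :=
  (F.toRight.filter fun x => x.2 = j).image Prod.fst

lemma mem_fam {F : Finset Item} {j : ℕ} {b : ℤ} : b ∈ fam F j ↔ (.inr (b, j) : Item) ∈ F := by
  unfold fam
  rw [mem_image]
  constructor
  · rintro ⟨x, h1, rfl⟩
    obtain ⟨h2, rfl⟩ := mem_filter.1 h1
    exact mem_toRight.1 h2
  · intro h
    exact ⟨(b, j), mem_filter.2 ⟨mem_toRight.2 h, rfl⟩, rfl⟩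

lemma coeff_sum_copy (z : Fin (m + 3) → ℤ × ℕ) (j : ℕ) :
    (∑ i, C (c i) * vec c (.inr (z i)) : ℤ[X]).coeff (2 * j + 1) =
      ∑ i, if (z i).2 = j then c i * (z i).1 else 0 := by
  rw [finsetSum_coeff]
  refine sum_congr rfl fun i _ => ?_
  rw [coeff_C_mul, coeff_copy, mul_ite, mul_zero]

theorem free_iff_parts (hc : ∀ i, c i ≠ 0) (h12 : c 1 + c 2 ≠ 0) (hs : ∑ i, c i ≠ 0)
    {F : Finset Item} {J : ℕ} (hJ : ∀ x, (.inr x : Item) ∈ F → x.2 < J) :
    ItemFree c F ↔ (¬ Full m fun t => (.inl t : Item) ∈ F) ∧ BFree c J (fam F) := by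
  classical
  constructor
  · intro hF
    refine ⟨fun h => full_sol h hF, fun z hz => ?_⟩
    by_contra hcon
    push Not at hcon
    refine hF (fun i => .inr (z i)) (fun i => mem_fam.1 (hz i).2) ?_
    ext n
    rw [coeff_zero]
    by_cases hn : n % 2 = 1
    · obtain ⟨j, rfl⟩ : ∃ j, n = 2 * j + 1 := ⟨n / 2, by omega⟩
      rw [coeff_sum_copy]
      exact hcon j
    · rw [finsetSum_coeff]
      refine sum_eq_zero fun i _ => ?_
      rw [coeff_C_mul, coeff_even' _ _ hn, mul_zero]
  · rintro ⟨h1, h2⟩ z hz hsol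
    set I : Finset (Fin (m + 3)) := univ.filter fun i => (z i).isLeft with hI
    set zl : Fin (m + 3) → Lab := fun i => (z i).elim id fun _ => (0, 0, 0) with hzl
    have left : ∀ i ∈ I, z i = .inl (zl i) := by
      intro i hi
      have := (mem_filter.1 hi).2
      rcases hz' : z i with t | x
      · simp [hzl, hz']
      · rw [hz'] at this; simp at this
    have right : ∀ i, i ∉ I → ∃ x, z i = .inr x := by
      intro i hi
      rcases hz' : z i with t | x
      · exact absurd (mem_filter.2 ⟨mem_univ i, by rw [hz']; rfl⟩) hi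
      · exact ⟨x, rfl⟩
    have hcoord : ∀ s, ∑ i ∈ I, c i * co c (zl i) s = 0 := by
      intro s
      have := congrArg (fun p => p.coeff (cd s)) hsol
      simp only [finsetSum_coeff, coeff_C_mul, coeff_zero] at this
      rw [← this]
      refine sum_subset_zero_on_sdiff (subset_univ I) (fun i hi => ?_) (fun i hi => ?_)
      · obtain ⟨x, hx⟩ := right i (mem_sdiff.1 hi).2
        rw [hx, coeff_even, mul_zero]
      · rw [left i hi, coeff_cd]
    rcases partial_sol hc h12 I zl hcoord with h3 | ⟨h3, u, v, huv, k1, k2, k3, k4⟩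
    · obtain ⟨i0, hi0⟩ : ∃ i0, i0 ∉ I := by
        by_contra hcon
        push Not at hcon
        have : I = univ := eq_univ_iff_forall.2 hcon
        rw [this] at h3
        exact hs h3
      obtain ⟨y, hy⟩ := right i0 hi0
      set zr : Fin (m + 3) → ℤ × ℕ := fun i => (z i).elim (fun _ => y) id with hzr
      have r1 : ∀ i, (.inr (zr i) : Item) ∈ F := by
        intro i
        rcases hz' : z i with t | x
        · have : zr i = y := by simp [hzr, hz']
          rw [this, ← hy]; exact hz i0
        · have : zr i = x := by simp [hzr, hz']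
          rw [this, ← hz']; exact hz i
      obtain ⟨j, hj⟩ := h2 zr fun i => ⟨hJ _ (r1 i), mem_fam.2 (r1 i)⟩
      apply hj
      have := congrArg (fun p => p.coeff (2 * j + 1)) hsol
      simp only [finsetSum_coeff, coeff_C_mul, coeff_zero] at this
      have e1 : ∀ i, (if (zr i).2 = j then c i * (zr i).1 else 0) =
          c i * (vec c (z i)).coeff (2 * j + 1) +
            if i ∈ I then c i * (if y.2 = j then y.1 else 0) else 0 := by
        intro i
        by_cases hi : i ∈ I
        · have q : zr i = y := by simp [hzr, left i hi]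
          rw [if_pos hi, left i hi, coeff_odd, q, mul_zero, zero_add, mul_ite, mul_zero]
        · obtain ⟨x, hx⟩ := right i hi
          have q : zr i = x := by simp [hzr, hx]
          rw [if_neg hi, hx, coeff_copy, q, add_zero, mul_ite, mul_zero]
      rw [sum_congr rfl fun i _ => e1 i, sum_add_distrib, this, zero_add, ← sum_filter]
      have e2 : univ.filter (fun i => i ∈ I) = I := by ext; simp
      rw [e2, ← sum_mul, h3, zero_mul]
    · refine h1 ⟨u, v, huv, ?_, ?_, ?_, fun i => ?_⟩
      · obtain ⟨i, e⟩ := k1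
        rw [← e, ← left i (h3 ▸ mem_univ i)]; exact hz i
      · obtain ⟨i, e⟩ := k2
        rw [← e, ← left i (h3 ▸ mem_univ i)]; exact hz i
      · obtain ⟨i, e⟩ := k3
        rw [← e, ← left i (h3 ▸ mem_univ i)]; exact hz i
      · obtain ⟨i', e⟩ := k4 i
        rw [← e, ← left i' (h3 ▸ mem_univ i')]; exact hz i'

/-- the largest solution-free sets of items -/
theorem parts_iff (hc : ∀ i, c i ≠ 0) (h12 : c 1 + c 2 ≠ 0) (hs : ∑ i, c i ≠ 0)
    (P : Finset Lab) (B : Finset ℤ) (J K : ℕ) :
    (∃ F ⊆ P.disjSum (B ×ˢ range J), ItemFree c F ∧ K + gmax c B J ≤ F.card) ↔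
      ∃ F ⊆ P, (¬ Full m fun t => t ∈ F) ∧ K ≤ F.card := by
  classical
  constructor
  · rintro ⟨F, h1, h2, h3⟩
    have hin : ∀ x, (.inr x : Item) ∈ F → x.1 ∈ B ∧ x.2 < J := fun x hx => by
      have := h1 hx
      simpa using this
    obtain ⟨q1, q2⟩ := (free_iff_parts hc h12 hs (J := J) fun x hx => (hin x hx).2).1 h2
    refine ⟨F.toLeft, fun t ht => ?_, ?_, ?_⟩
    · have := h1 (mem_toLeft.1 ht)
      simpa using this
    · simpa only [mem_toLeft] using q1
    · have e1 := card_toLeft_add_card_toRight (u := F)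
      have e2 : F.toRight.card = ∑ j ∈ range J, (fam F j).card := by
        rw [card_eq_sum_card_fiberwise (f := Prod.snd) (t := range J) fun x hx =>
          mem_coe.2 (mem_range.2 (hin x (mem_toRight.1 (mem_coe.1 hx))).2)]
        refine sum_congr rfl fun j _ => ?_
        rw [fam, card_image_of_injOn]
        intro x hx y hy e
        exact Prod.ext e ((mem_filter.1 (mem_coe.1 hx)).2.trans
          (mem_filter.1 (mem_coe.1 hy)).2.symm)
      have e3 : F.toRight.card ≤ gmax c B J := by
        refine le_gmax ⟨fun j => if j < J then fam F j else ∅, fun j => ?_, fun z hz => ?_, ?_⟩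
        · beta_reduce
          split_ifs
          · intro b hb'
            exact (hin _ (mem_fam.1 hb')).1
          · exact empty_subset _
        · refine q2 z fun i => ?_
          have := hz i
          beta_reduce at this
          rw [if_pos this.1] at this
          exact this
        · rw [e2]
          refine sum_congr rfl fun j hj => ?_
          beta_reduce
          rw [if_pos (mem_range.1 hj)]
      omega
  · rintro ⟨F1, h1, h2, h3⟩
    obtain ⟨τ, t1, t2, t3⟩ := gmax_good (c := c) (B := B) (by omega) J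
    set F2 : Finset (ℤ × ℕ) := (B ×ˢ range J).filter fun x => x.1 ∈ τ x.2 with hF2
    have hfam : ∀ j < J, fam (F1.disjSum F2) j = τ j := by
      intro j hj
      ext b
      rw [mem_fam]
      simp only [inr_mem_disjSum, hF2, mem_filter, mem_product, mem_range]
      exact ⟨fun h => h.2, fun h => ⟨⟨t1 j h, hj⟩, h⟩⟩
    refine ⟨F1.disjSum F2, disjSum_mono h1 (filter_subset _ _), ?_, ?_⟩
    · refine (free_iff_parts hc h12 hs (J := J) fun x hx => ?_).2 ⟨?_, fun z hz => ?_⟩
      · have := inr_mem_disjSum.1 hx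
        exact mem_range.1 (mem_product.1 (mem_filter.1 this).1).2
      · simpa only [inl_mem_disjSum] using h2
      · refine t2 z fun i => ?_
        have := hz i
        rw [hfam _ this.1] at this
        exact this
    · rw [card_disjSum]
      have e2 : F2.card = ∑ j ∈ range J, (τ j).card := by
        rw [card_eq_sum_card_fiberwise (f := Prod.snd) (t := range J) fun x hx =>
          mem_coe.2 (mem_product.1 (mem_filter.1 (mem_coe.1 hx)).1).2]
        refine sum_congr rfl fun j hj => ?_
        rw [← hfam j (mem_range.1 hj), fam, card_image_of_injOn]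
        · congr 1
          ext x
          simp only [mem_filter, mem_toRight, inr_mem_disjSum, hF2]
        · intro x hx y hy e
          exact Prod.ext e ((mem_filter.1 (mem_coe.1 hx)).2.trans
            (mem_filter.1 (mem_coe.1 hy)).2.symm)
      rw [t3, ← e2]
      omega

end Pool.Agent.U17.PR
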